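import Pool.Agent.N496.VS.Crit

/-!
# The potential near `ψ = 0` (job A6): derivatives
-/

set_option autoImplicit false

namespace Pool.Agent.N496.VS

open Filter Topology Metric Set
open scoped Real
open Pool.Agent.N561
open Pool.Agent.W711.HT (Lg Rc)

theorem Lg_eq (ψ φ x : ℂ) : Lg (2 * π * dst ψ φ) x =
    Complex.log (Complex.cos (aa (ψ, φ) - x / 2) / Complex.cos (aa (ψ, φ) + x / 2)) := by
  unfold Lg
  have e1 : (2 * π * dst ψ φ - x) / 2 = aa (ψ, φ) - x / 2 := by
    rw [← pi_dst]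
    ring
  have e2 : (2 * π * dst ψ φ + x) / 2 = aa (ψ, φ) + x / 2 := by
    rw [← pi_dst]
    ring
  rw [e1, e2]

theorem exp_diff {a b : ℂ} (ha : 2 * Complex.cos a ≠ 0) (hb : 2 * Complex.cos b ≠ 0) :
    Complex.exp (Complex.log (2 * Complex.cos a) - Complex.log (2 * Complex.cos b) +
      Complex.log (Complex.cos b / Complex.cos a)) = 1 := by
  have h1 : Complex.cos a ≠ 0 := fun h => ha (by rw [h, mul_zero])
  have h2 : Complex.cos b ≠ 0 := fun h => hb (by rw [h, mul_zero])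
  rw [Complex.exp_add, Complex.exp_sub, Complex.exp_log ha, Complex.exp_log hb,
    Complex.exp_log (div_ne_zero h2 h1)]
  field_simp

/-- the derivative in `ψ` -/
theorem dpsi {p : ℂ × ℂ} (h : Nice p) : Complex.log (2 * Complex.cos (aa p + p.1 / 2)) -
    Complex.log (2 * Complex.cos (aa p - p.1 / 2)) = -Lg (2 * π * dst p.1 p.2) p.1 := by
  have n1 := Complex.slitPlane_ne_zero (DL_slit h.mem1)
  have n2 := Complex.slitPlane_ne_zero (DL_slit h.mem2)
  have h1 := exp_diff n1 n2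
  have h2 := arg_lt h.abs1.1
  have h3 := arg_lt h.abs1.2
  have h4 : |(Complex.log (Complex.cos (aa p - p.1 / 2) / Complex.cos (aa p + p.1 / 2))).im| ≤
    π := by
    rw [Complex.log_im]
    exact Complex.abs_arg_le_pi _
  have h5 := eq_zero_of_exp h1 (by
    rw [Complex.add_im, Complex.sub_im]
    refine (abs_add_le _ _).trans_lt ?_
    have := abs_sub (Complex.log (2 * Complex.cos (aa p + p.1 / 2))).im
      (Complex.log (2 * Complex.cos (aa p - p.1 / 2))).im
    linarith)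
  rw [Lg_eq]
  linear_combination h5

/-- the difference for the derivative in `φ` -/
noncomputable def D2 (p : ℂ × ℂ) : ℂ := Complex.log (2 * Complex.cos (aa p + p.2 / 2)) -
  Complex.log (2 * Complex.cos (aa p - p.2 / 2)) +
    Complex.log (Complex.cos (aa p - p.2 / 2) / Complex.cos (aa p + p.2 / 2))

theorem D2_exp {p : ℂ × ℂ} (h : Nice p) : Complex.exp (D2 p) = 1 :=
  exp_diff (Complex.slitPlane_ne_zero (DL_slit h.mem3))
    (Complex.slitPlane_ne_zero (DL_slit h.mem4))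

theorem sin_im_pos {φ : ℂ} (h : φ ∈ GG) : 0 < (Complex.sin (φ / 2)).im := by
  rw [sin_im]
  obtain ⟨h1, h2⟩ := abs_lt.1 (GG_re h)
  have h3 : (φ / 2).im = φ.im / 2 := by simp
  apply mul_pos (Real.cos_pos_of_mem_Ioo ⟨h1, h2⟩)
  rw [h3]
  apply Real.sinh_pos_iff.2
  linarith [h.2.1]

theorem base_cos_sub {φ : ℂ} (h : φ ∈ GG) : Complex.cos (aa (0, φ) - φ / 2) =
    Complex.cos (aa (0, φ)) * Complex.cos (φ / 2) * (1 + Complex.sin (φ / 2)) := by
  have hn := nice_base h
  have h1 : Complex.sin (aa (0, φ)) = ww (0, φ) * Complex.cos (aa (0, φ)) := at_sin hn.wre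
  rw [Complex.cos_sub, h1, ww_zero]
  ring

theorem base_cos_add {φ : ℂ} (h : φ ∈ GG) : Complex.cos (aa (0, φ) + φ / 2) =
    Complex.cos (aa (0, φ)) * Complex.cos (φ / 2) * (1 - Complex.sin (φ / 2)) := by
  have hn := nice_base h
  have h1 : Complex.sin (aa (0, φ)) = ww (0, φ) * Complex.cos (aa (0, φ)) := at_sin hn.wre
  rw [Complex.cos_add, h1, ww_zero]
  ring

theorem cos_aa_ne {p : ℂ × ℂ} (h : Nice p) : Complex.cos (aa p) ≠ 0 := at_cos_ne h.wre

theorem ratio_slit {φ : ℂ} (h : φ ∈ GG) :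
    Complex.cos (aa (0, φ) - φ / 2) / Complex.cos (aa (0, φ) + φ / 2) ∈ Complex.slitPlane := by
  rw [base_cos_sub h, base_cos_add h]
  have h1 : Complex.cos (aa (0, φ)) ≠ 0 := cos_aa_ne (nice_base h)
  have h2 : Complex.cos (φ / 2) ≠ 0 := by
    intro h0
    have := GG_cre h
    rw [h0] at this
    simp at this
  rw [mul_div_mul_left _ _ (mul_ne_zero h1 h2)]
  have h3 := qz_slit (z := -Complex.I * Complex.sin (φ / 2)) (by
    have := sin_im_pos h
    simpa using this)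
  unfold qz at h3
  have e : -Complex.I * Complex.sin (φ / 2) * Complex.I = Complex.sin (φ / 2) := by
    linear_combination -Complex.sin (φ / 2) * Complex.I_mul_I
  rwa [e] at h3

theorem D2_cont {φ : ℂ} (h : φ ∈ GG) : ContinuousAt D2 (0, φ) := by
  have hn := nice_base h
  have ha := hn.ana.continuousAt
  have h2 : ContinuousAt (fun q : ℂ × ℂ => q.2 / 2) (0, φ) := by
    have : Continuous (fun q : ℂ × ℂ => q.2 / 2) := by fun_prop
    exact this.continuousAt
  have c1 : ContinuousAt (fun q : ℂ × ℂ => Complex.cos (aa q + q.2 / 2)) (0, φ) :=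
    Complex.continuous_cos.continuousAt.comp (ha.add h2)
  have c2 : ContinuousAt (fun q : ℂ × ℂ => Complex.cos (aa q - q.2 / 2)) (0, φ) :=
    Complex.continuous_cos.continuousAt.comp (ha.sub h2)
  have l1 : ContinuousAt (fun q : ℂ × ℂ => Complex.log (2 * Complex.cos (aa q + q.2 / 2)))
      (0, φ) := ContinuousAt.clog (f := fun q : ℂ × ℂ => 2 * Complex.cos (aa q + q.2 / 2))
    (continuousAt_const.mul c1) (DL_slit hn.mem3)
  have l2 : ContinuousAt (fun q : ℂ × ℂ => Complex.log (2 * Complex.cos (aa q - q.2 / 2)))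
      (0, φ) := ContinuousAt.clog (f := fun q : ℂ × ℂ => 2 * Complex.cos (aa q - q.2 / 2))
    (continuousAt_const.mul c2) (DL_slit hn.mem4)
  have n1 : Complex.cos (aa (0, φ) + φ / 2) ≠ 0 := by
    have := Complex.slitPlane_ne_zero (DL_slit hn.mem3)
    intro h0
    apply this
    simp only [h0, mul_zero]
  have l3 : ContinuousAt (fun q : ℂ × ℂ => Complex.log (Complex.cos (aa q - q.2 / 2) /
      Complex.cos (aa q + q.2 / 2))) (0, φ) :=
    ContinuousAt.clog (f := fun q : ℂ × ℂ => Complex.cos (aa q - q.2 / 2) /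
      Complex.cos (aa q + q.2 / 2)) (c2.div c1 n1) (ratio_slit h)
  exact (l1.sub l2).add l3

theorem D2_axis {Y : ℝ} (h : (Y * Complex.I : ℂ) ∈ GG) : D2 (0, Y * Complex.I) = 0 := by
  have hn := nice_base h
  apply eq_zero_of_exp (D2_exp hn)
  have ha := aa_real Y
  set α : ℝ := Real.arctan (Real.cosh (Y / 2)) with hα
  have hα1 : 0 < α := by
    have := hn.re_pos
    rw [ha] at this
    simpa using this
  have hα2 : α < π / 2 := by
    have := hn.re_lt
    rw [ha] at this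
    simpa using this
  have hpi := Real.pi_pos
  unfold D2
  rw [ha]
  simp only
  have r3 := arg_lt (z := (α : ℂ) + Y * Complex.I / 2) (by
    have : ((α : ℂ) + Y * Complex.I / 2).re = α := by simp
    rw [this, abs_of_pos hα1]
    exact hα2)
  have r4 := arg_lt (z := (α : ℂ) - Y * Complex.I / 2) (by
    have : ((α : ℂ) - Y * Complex.I / 2).re = α := by simp
    rw [this, abs_of_pos hα1]
    exact hα2)
  have r5 : |(Complex.log (Complex.cos ((α : ℂ) - Y * Complex.I / 2) /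
    Complex.cos ((α : ℂ) + Y * Complex.I / 2))).im| ≤ π := by
    rw [Complex.log_im]
    exact Complex.abs_arg_le_pi _
  rw [Complex.add_im, Complex.sub_im]
  refine (abs_add_le _ _).trans_lt ?_
  have := abs_sub (Complex.log (2 * Complex.cos ((α : ℂ) + Y * Complex.I / 2))).im
    (Complex.log (2 * Complex.cos ((α : ℂ) - Y * Complex.I / 2))).im
  linarith

theorem D2_base {φ : ℂ} (h : φ ∈ GG) : D2 (0, φ) = 0 := by
  have key := path_zero (f := fun s : ℝ => D2 (0, ((s * φ.re : ℝ) + φ.im * Complex.I : ℂ)))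
    (by
      intro s hs
      have := ContinuousAt.comp (f := fun s : ℝ =>
        ((0 : ℂ), ((s * φ.re : ℝ) + φ.im * Complex.I : ℂ))) (D2_cont (GG_shrink h hs.1 hs.2))
        path_cont.continuousAt
      exact this.continuousWithinAt)
    (fun s hs => D2_exp (nice_base (GG_shrink h hs.1 hs.2)))
    (by
      have hg := GG_shrink h le_rfl zero_le_one
      simp only [zero_mul, Complex.ofReal_zero, zero_add] at hg ⊢
      exact D2_axis hg)
  simpa [Complex.re_add_im] using key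

theorem D2_near {φ : ℂ} (h : φ ∈ GG) : ∀ᶠ p in 𝓝 ((0 : ℂ), φ), D2 p = 0 := by
  have hn := nice_base h
  have h1 := (D2_cont h)
  have h2 : ∀ᶠ p in 𝓝 ((0 : ℂ), φ), ‖D2 p‖ < 1 := by
    have h3 : ‖D2 (0, φ)‖ < 1 := by
      rw [D2_base h]
      simp
    exact h1.norm.eventually (isOpen_Iio.mem_nhds h3)
  filter_upwards [nice_near hn, h2] with p hp hp2
  apply eq_zero_of_exp (D2_exp hp)
  have := Complex.abs_im_le_norm (D2 p)
  have := Real.pi_gt_three
  linarith

/-! ### The first derivatives -/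

/-- the derivative of the potential -/
noncomputable def TE (ψ φ δ : ℂ) : ℂ := Complex.log (2 * Complex.cos (π * δ + ψ / 2)) +
  Complex.log (2 * Complex.cos (π * δ - ψ / 2)) +
  Complex.log (2 * Complex.cos (π * δ + φ / 2)) +
  Complex.log (2 * Complex.cos (π * δ - φ / 2)) - 4 * Complex.log (2 * Complex.sin (π * δ))

theorem TE_dst (p : ℂ × ℂ) : TE p.1 p.2 (dst p.1 p.2) = EE p := by
  unfold TE EE
  rw [pi_dst]

theorem TH_deriv {ψ φ δ : ℂ} (m1 : π * δ + ψ / 2 ∈ DL) (m2 : π * δ - ψ / 2 ∈ DL)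
    (m3 : π * δ + φ / 2 ∈ DL) (m4 : π * δ - φ / 2 ∈ DL) (m5 : π * δ ∈ DS) :
    HasDerivAt (TH ψ φ) (TE ψ φ δ) δ := by
  have hpi := pi_ne
  have e0 : HasDerivAt (fun δ : ℂ => π * δ) (π : ℂ) δ := by
    simpa using (hasDerivAt_id δ).const_mul (π : ℂ)
  have k1 := (LL_deriv m1).comp δ (e0.add_const (ψ / 2))
  have k2 := (LL_deriv m2).comp δ (e0.sub_const (ψ / 2))
  have k3 := (LL_deriv m3).comp δ (e0.add_const (φ / 2))
  have k4 := (LL_deriv m4).comp δ (e0.sub_const (φ / 2))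
  have k5 := (LS_deriv m5).comp δ e0
  have k := (((k1.add k2).div_const (π : ℂ)).add ((k3.add k4).div_const (π : ℂ))).sub
    ((k5.div_const (π : ℂ)).const_mul 4)
  refine (k.congr_deriv ?_).congr_of_eventuallyEq (Eventually.of_forall fun z => ?_)
  · unfold TE
    field_simp
    ring
  · unfold TH RR
    rfl

/-- the second derivative of the potential -/
noncomputable def TF (ψ φ δ : ℂ) : ℂ := -π * (Complex.sin (π * δ + ψ / 2) /
    Complex.cos (π * δ + ψ / 2) + Complex.sin (π * δ - ψ / 2) / Complex.cos (π * δ - ψ / 2) +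
    Complex.sin (π * δ + φ / 2) / Complex.cos (π * δ + φ / 2) +
    Complex.sin (π * δ - φ / 2) / Complex.cos (π * δ - φ / 2)) -
    4 * π * (Complex.cos (π * δ) / Complex.sin (π * δ))

theorem lc_deriv {g : ℂ → ℂ} {g' δ : ℂ} (hg : HasDerivAt g g' δ) (hm : g δ ∈ DL) :
    HasDerivAt (fun z => Complex.log (2 * Complex.cos (g z)))
      (-(Complex.sin (g δ) / Complex.cos (g δ)) * g') δ := by
  have h0 := Complex.slitPlane_ne_zero (DL_slit hm)
  have h1 : Complex.cos (g δ) ≠ 0 := fun h => h0 (by rw [h, mul_zero])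
  have h2 := ((hg.ccos).const_mul 2).clog (DL_slit hm)
  refine h2.congr_deriv ?_
  field_simp

theorem ls_deriv {g : ℂ → ℂ} {g' δ : ℂ} (hg : HasDerivAt g g' δ) (hm : g δ ∈ DS) :
    HasDerivAt (fun z => Complex.log (2 * Complex.sin (g z)))
      ((Complex.cos (g δ) / Complex.sin (g δ)) * g') δ := by
  have h0 := Complex.slitPlane_ne_zero (DS_slit hm)
  have h1 : Complex.sin (g δ) ≠ 0 := fun h => h0 (by rw [h, mul_zero])
  have h2 := ((hg.csin).const_mul 2).clog (DS_slit hm)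
  refine h2.congr_deriv ?_
  field_simp

theorem TE_deriv {ψ φ δ : ℂ} (m1 : π * δ + ψ / 2 ∈ DL) (m2 : π * δ - ψ / 2 ∈ DL)
    (m3 : π * δ + φ / 2 ∈ DL) (m4 : π * δ - φ / 2 ∈ DL) (m5 : π * δ ∈ DS) :
    HasDerivAt (TE ψ φ) (TF ψ φ δ) δ := by
  have e0 : HasDerivAt (fun δ : ℂ => π * δ) (π : ℂ) δ := by
    simpa using (hasDerivAt_id δ).const_mul (π : ℂ)
  have k1 := lc_deriv (e0.add_const (ψ / 2)) m1
  have k2 := lc_deriv (e0.sub_const (ψ / 2)) m2
  have k3 := lc_deriv (e0.add_const (φ / 2)) m3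
  have k4 := lc_deriv (e0.sub_const (φ / 2)) m4
  have k5 := ls_deriv e0 m5
  have k := (((k1.add k2).add k3).add k4).sub (k5.const_mul 4)
  refine k.congr_deriv ?_
  unfold TF
  ring

theorem TH_deriv2 {p : ℂ × ℂ} (h : Nice p) :
    deriv (deriv (TH p.1 p.2)) (dst p.1 p.2) = TF p.1 p.2 (dst p.1 p.2) := by
  have e := pi_dst p.1 p.2
  have m1 : π * dst p.1 p.2 + p.1 / 2 ∈ DL := by rw [e]; exact h.mem1
  have m2 : π * dst p.1 p.2 - p.1 / 2 ∈ DL := by rw [e]; exact h.mem2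
  have m3 : π * dst p.1 p.2 + p.2 / 2 ∈ DL := by rw [e]; exact h.mem3
  have m4 : π * dst p.1 p.2 - p.2 / 2 ∈ DL := by rw [e]; exact h.mem4
  have m5 : π * dst p.1 p.2 ∈ DS := by rw [e]; exact h.memS
  have c0 : ContinuousAt (fun δ : ℂ => (π : ℂ) * δ) (dst p.1 p.2) := by fun_prop
  have n1 := (c0.add continuousAt_const).eventually (DL_open.mem_nhds m1)
  have n2 := (c0.sub continuousAt_const).eventually (DL_open.mem_nhds m2)
  have n3 := (c0.add continuousAt_const).eventually (DL_open.mem_nhds m3)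
  have n4 := (c0.sub continuousAt_const).eventually (DL_open.mem_nhds m4)
  have n5 := c0.eventually (DS_open.mem_nhds m5)
  have ev : deriv (TH p.1 p.2) =ᶠ[𝓝 (dst p.1 p.2)] TE p.1 p.2 := by
    filter_upwards [n1, n2, n3, n4, n5] with δ a1 a2 a3 a4 a5
    exact (TH_deriv a1 a2 a3 a4 a5).deriv
  rw [ev.deriv_eq]
  exact (TE_deriv m1 m2 m3 m4 m5).deriv

theorem TH_crit {p : ℂ × ℂ} (h : Nice p) (hE : EE p = 0) :
    HasDerivAt (TH p.1 p.2) 0 (dst p.1 p.2) := by
  have e := pi_dst p.1 p.2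
  have m1 : π * dst p.1 p.2 + p.1 / 2 ∈ DL := by rw [e]; exact h.mem1
  have m2 : π * dst p.1 p.2 - p.1 / 2 ∈ DL := by rw [e]; exact h.mem2
  have m3 : π * dst p.1 p.2 + p.2 / 2 ∈ DL := by rw [e]; exact h.mem3
  have m4 : π * dst p.1 p.2 - p.2 / 2 ∈ DL := by rw [e]; exact h.mem4
  have m5 : π * dst p.1 p.2 ∈ DS := by rw [e]; exact h.memS
  have := TH_deriv m1 m2 m3 m4 m5
  rwa [TE_dst, hE] at this

/-! ### The critical value -/

theorem sg_eq (ψ φ : ℂ) : sg ψ φ = (LL (aa (ψ, φ) + ψ / 2) + LL (aa (ψ, φ) - ψ / 2)) / π +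
    (LL (aa (ψ, φ) + φ / 2) + LL (aa (ψ, φ) - φ / 2)) / π - 4 * (LS (aa (ψ, φ)) / π) := by
  unfold sg TH RR
  rw [pi_dst]

theorem LL_an {w : ℂ} (h : w ∈ DL) : AnalyticAt ℂ LL w := by
  have : DifferentiableOn ℂ LL DL := fun z hz => (LL_deriv hz).differentiableAt.differentiableWithinAt
  exact this.analyticAt (DL_open.mem_nhds h)

theorem LS_an {w : ℂ} (h : w ∈ DS) : AnalyticAt ℂ LS w := by
  have : DifferentiableOn ℂ LS DS := fun z hz => (LS_deriv hz).differentiableAt.differentiableWithinAt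
  exact this.analyticAt (DS_open.mem_nhds h)

theorem sg_an {p : ℂ × ℂ} (h : Nice p) : AnalyticAt ℂ (fun p : ℂ × ℂ => sg p.1 p.2) p := by
  have e : (fun p : ℂ × ℂ => sg p.1 p.2) = fun p : ℂ × ℂ =>
      (LL (aa p + p.1 / 2) + LL (aa p - p.1 / 2)) / π +
      (LL (aa p + p.2 / 2) + LL (aa p - p.2 / 2)) / π - 4 * (LS (aa p) / π) := by
    funext p
    exact sg_eq p.1 p.2
  rw [e]
  have d1 : AnalyticAt ℂ (fun p : ℂ × ℂ => p.1 / 2) p := analyticAt_fst.div_const
  have d2 : AnalyticAt ℂ (fun p : ℂ × ℂ => p.2 / 2) p := analyticAt_snd.div_const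
  have k1 : AnalyticAt ℂ (fun p : ℂ × ℂ => LL (aa p + p.1 / 2)) p := AnalyticAt.comp (g := LL)
    (f := fun q : ℂ × ℂ => aa q + q.1 / 2) (LL_an h.mem1) (h.ana.add d1)
  have k2 : AnalyticAt ℂ (fun p : ℂ × ℂ => LL (aa p - p.1 / 2)) p := AnalyticAt.comp (g := LL)
    (f := fun q : ℂ × ℂ => aa q - q.1 / 2) (LL_an h.mem2) (h.ana.sub d1)
  have k3 : AnalyticAt ℂ (fun p : ℂ × ℂ => LL (aa p + p.2 / 2)) p := AnalyticAt.comp (g := LL)
    (f := fun q : ℂ × ℂ => aa q + q.2 / 2) (LL_an h.mem3) (h.ana.add d2)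
  have k4 : AnalyticAt ℂ (fun p : ℂ × ℂ => LL (aa p - p.2 / 2)) p := AnalyticAt.comp (g := LL)
    (f := fun q : ℂ × ℂ => aa q - q.2 / 2) (LL_an h.mem4) (h.ana.sub d2)
  have k5 : AnalyticAt ℂ (fun p => LS (aa p)) p := (LS_an h.memS).comp h.ana
  exact (((k1.add k2).div_const).add ((k3.add k4).div_const)).sub
    (analyticAt_const.mul k5.div_const)

theorem sg_d1 {p : ℂ × ℂ} (h : Nice p) (hE : EE p = 0) :
    HasDerivAt (fun z => sg z p.2) (1 / (2 * π) * (Complex.log (2 * Complex.cos (aa p + p.1 / 2)) -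
      Complex.log (2 * Complex.cos (aa p - p.1 / 2)))) p.1 := by
  have hpi := pi_ne
  have h0 : DifferentiableAt ℂ (fun z : ℂ => aa (z, p.2)) p.1 := by
    have h1 : DifferentiableAt ℂ aa (p.1, p.2) := h.ana.differentiableAt
    exact DifferentiableAt.comp (f := fun z : ℂ => (z, p.2)) p.1 h1 (by fun_prop)
  obtain ⟨d, hd⟩ : ∃ d, HasDerivAt (fun z : ℂ => aa (z, p.2)) d p.1 := ⟨_, h0.hasDerivAt⟩
  have i2 : HasDerivAt (fun z : ℂ => z / 2) (1 / 2 : ℂ) p.1 := (hasDerivAt_id p.1).div_const 2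
  have k1 := (LL_deriv h.mem1).comp p.1 (hd.add i2)
  have k2 := (LL_deriv h.mem2).comp p.1 (hd.sub i2)
  have k3 := (LL_deriv h.mem3).comp p.1 (hd.add_const (p.2 / 2))
  have k4 := (LL_deriv h.mem4).comp p.1 (hd.sub_const (p.2 / 2))
  have k5 := (LS_deriv h.memS).comp p.1 hd
  have k := (((k1.add k2).div_const (π : ℂ)).add ((k3.add k4).div_const (π : ℂ))).sub
    ((k5.div_const (π : ℂ)).const_mul 4)
  refine (k.congr_deriv ?_).congr_of_eventuallyEq (Eventually.of_forall fun z => ?_)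
  · unfold EE at hE
    change Complex.log (2 * Complex.cos (aa p + p.1 / 2)) + _ + _ + _ - _ = 0 at hE
    generalize Complex.log (2 * Complex.cos (aa p + p.1 / 2)) = A1 at hE ⊢
    generalize Complex.log (2 * Complex.cos (aa p - p.1 / 2)) = A2 at hE ⊢
    generalize Complex.log (2 * Complex.cos (aa p + p.2 / 2)) = A3 at hE ⊢
    generalize Complex.log (2 * Complex.cos (aa p - p.2 / 2)) = A4 at hE ⊢
    generalize Complex.log (2 * Complex.sin (aa p)) = A5 at hE ⊢
    field_simp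
    linear_combination 2 * d * hE
  · change sg z p.2 = _
    rw [sg_eq]
    rfl

theorem sg_d2 {p : ℂ × ℂ} (h : Nice p) (hE : EE p = 0) :
    HasDerivAt (fun z => sg p.1 z) (1 / (2 * π) * (Complex.log (2 * Complex.cos (aa p + p.2 / 2)) -
      Complex.log (2 * Complex.cos (aa p - p.2 / 2)))) p.2 := by
  have hpi := pi_ne
  have h0 : DifferentiableAt ℂ (fun z : ℂ => aa (p.1, z)) p.2 := by
    have h1 : DifferentiableAt ℂ aa (p.1, p.2) := h.ana.differentiableAt
    exact DifferentiableAt.comp (f := fun z : ℂ => (p.1, z)) p.2 h1 (by fun_prop)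
  obtain ⟨d, hd⟩ : ∃ d, HasDerivAt (fun z : ℂ => aa (p.1, z)) d p.2 := ⟨_, h0.hasDerivAt⟩
  have i2 : HasDerivAt (fun z : ℂ => z / 2) (1 / 2 : ℂ) p.2 := (hasDerivAt_id p.2).div_const 2
  have k1 := (LL_deriv h.mem1).comp p.2 (hd.add_const (p.1 / 2))
  have k2 := (LL_deriv h.mem2).comp p.2 (hd.sub_const (p.1 / 2))
  have k3 := (LL_deriv h.mem3).comp p.2 (hd.add i2)
  have k4 := (LL_deriv h.mem4).comp p.2 (hd.sub i2)
  have k5 := (LS_deriv h.memS).comp p.2 hd
  have k := (((k1.add k2).div_const (π : ℂ)).add ((k3.add k4).div_const (π : ℂ))).sub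
    ((k5.div_const (π : ℂ)).const_mul 4)
  refine (k.congr_deriv ?_).congr_of_eventuallyEq (Eventually.of_forall fun z => ?_)
  · unfold EE at hE
    generalize Complex.log (2 * Complex.cos (aa p + p.1 / 2)) = A1 at hE ⊢
    generalize Complex.log (2 * Complex.cos (aa p - p.1 / 2)) = A2 at hE ⊢
    generalize Complex.log (2 * Complex.cos (aa p + p.2 / 2)) = A3 at hE ⊢
    generalize Complex.log (2 * Complex.cos (aa p - p.2 / 2)) = A4 at hE ⊢
    generalize Complex.log (2 * Complex.sin (aa p)) = A5 at hE ⊢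
    field_simp
    linear_combination 2 * d * hE
  · change sg p.1 z = _
    rw [sg_eq]
    rfl

end Pool.Agent.N496.VS
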