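import Pool.Agent.N561.A.Stm
import Pool.Agent.W398.HT.RRD2

/-!
# The potential near `ψ = 0` (job A6): basic lemmas
-/

set_option autoImplicit false

namespace Pool.Agent.N496.VS

open Filter Topology Metric MeasureTheory Set
open scoped Real
open Pool.Agent.N561

/-- primitive on a star-shaped domain -/
theorem star {D : Set ℂ} (hD : IsOpen D)
    (hs : ∀ z ∈ D, ∀ t : ℝ, 0 ≤ t → t ≤ 1 → (t * z : ℂ) ∈ D) {f : ℂ → ℂ}
    (hf : DifferentiableOn ℂ f D) {w : ℂ} (hw : w ∈ D) :
    HasDerivAt (fun w => w * ∫ t in (0:ℝ)..1, f (t * w)) (f w) w := by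
  have hfc : ContinuousOn f D := hf.continuousOn
  have hdc : ContinuousOn (deriv f) D := (hf.deriv hD).continuousOn
  have hmaps : ∀ q : ℂ × ℝ, q ∈ D ×ˢ Icc (0:ℝ) 1 → ((q.2 : ℂ) * q.1) ∈ D := by
    rintro ⟨z, t⟩ ⟨hz, ht⟩
    exact hs z hz t ht.1 ht.2
  have h1 := Pool.Agent.W398.HT.par D hD (fun z t => f (t * z))
    (fun z t => ((t : ℂ) * deriv f (t * z)) • (1 : ℂ →L[ℂ] ℂ)) (by
      intro x hx t ht
      have h2 : HasDerivAt (fun z : ℂ => (t : ℂ) * z) (t : ℂ) x := by
        simpa using (hasDerivAt_id x).const_mul (t : ℂ)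
      have h3 : HasDerivAt f (deriv f (t * x)) (t * x) :=
        (hf.differentiableAt (hD.mem_nhds (hs x hx t ht.1 ht.2))).hasDerivAt
      have h4 := (h3.comp x h2).hasFDerivAt
      refine h4.congr_fderiv ?_
      ext
      simp [mul_comm]) (by
      exact hfc.comp (f := fun q : ℂ × ℝ => (q.2 : ℂ) * q.1) (by fun_prop) hmaps) (by
      apply ContinuousOn.fun_smul
      · apply ContinuousOn.mul (by fun_prop)
        exact hdc.comp (f := fun q : ℂ × ℝ => (q.2 : ℂ) * q.1) (by fun_prop) hmaps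
      · exact continuousOn_const) w hw
  have hslice : ContinuousOn (fun t : ℝ => f (t * w)) (uIcc 0 1) := by
    rw [uIcc_of_le zero_le_one]
    exact hfc.comp (f := fun t : ℝ => (t : ℂ) * w) (by fun_prop)
      (fun t ht => hs w hw t ht.1 ht.2)
  have hslice' : ContinuousOn (fun t : ℝ => (t : ℂ) * deriv f (t * w)) (uIcc 0 1) := by
    rw [uIcc_of_le zero_le_one]
    apply ContinuousOn.mul (by fun_prop)
    exact hdc.comp (f := fun t : ℝ => (t : ℂ) * w) (by fun_prop)
      (fun t ht => hs w hw t ht.1 ht.2)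
  have h2 : HasDerivAt (fun z => ∫ t in (0:ℝ)..1, f (t * z))
      (∫ t in (0:ℝ)..1, (t : ℂ) * deriv f (t * w)) w := by
    refine h1.hasDerivAt.congr_deriv ?_
    rw [ContinuousLinearMap.intervalIntegral_apply]
    · simp
    · apply ContinuousOn.intervalIntegrable
      exact hslice'.smul continuousOn_const
  have h3 := (hasDerivAt_id w).mul h2
  simp only [id, one_mul] at h3
  refine h3.congr_deriv ?_
  have hd : ∀ t ∈ uIcc (0:ℝ) 1, HasDerivAt (fun t : ℝ => (t : ℂ) * f (t * w))
      (f (t * w) + w * ((t : ℂ) * deriv f (t * w))) t := by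
    intro t ht
    rw [uIcc_of_le zero_le_one] at ht
    have k0 : HasDerivAt (fun t : ℝ => (t : ℂ)) 1 t := Complex.ofRealCLM.hasDerivAt
    have k1 : HasDerivAt (fun t : ℝ => (t : ℂ) * w) w t := by
      simpa using k0.mul_const w
    have k2 : HasDerivAt f (deriv f (t * w)) (t * w) :=
      (hf.differentiableAt (hD.mem_nhds (hs w hw t ht.1 ht.2))).hasDerivAt
    have k3 := k0.mul (k2.comp t k1)
    refine k3.congr_deriv ?_
    simp only [Function.comp]
    ring
  have i1 := hslice.intervalIntegrable (μ := volume)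
  have i2 := (hslice'.intervalIntegrable (μ := volume)).const_mul w
  have hint := intervalIntegral.integral_eq_sub_of_hasDerivAt hd (i1.add i2)
  rw [intervalIntegral.integral_add i1 i2, intervalIntegral.integral_const_mul] at hint
  rw [hint]
  simp

/-- the domain of `LL` -/
def DL : Set ℂ := {w | |w.re| < π ∧ (w.im ≠ 0 ∨ |w.re| < π / 2)}

theorem DL_open : IsOpen DL := by
  have h1 : IsOpen {w : ℂ | |w.re| < π} := isOpen_lt (by fun_prop) continuous_const
  have h2 : IsOpen {w : ℂ | w.im ≠ 0} := isOpen_ne_fun (by fun_prop) continuous_const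
  have h3 : IsOpen {w : ℂ | |w.re| < π / 2} := isOpen_lt (by fun_prop) continuous_const
  have : DL = {w : ℂ | |w.re| < π} ∩ ({w : ℂ | w.im ≠ 0} ∪ {w : ℂ | |w.re| < π / 2}) := rfl
  rw [this]
  exact h1.inter (h2.union h3)

theorem DL_star : ∀ z ∈ DL, ∀ t : ℝ, 0 ≤ t → t ≤ 1 → (t * z : ℂ) ∈ DL := by
  rintro z ⟨hz1, hz2⟩ t ht0 ht1
  have hpi := Real.pi_pos
  have e1 : ((t : ℂ) * z).re = t * z.re := by simp
  have e2 : ((t : ℂ) * z).im = t * z.im := by simp
  have hle : |t * z.re| ≤ |z.re| := by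
    rw [abs_mul, abs_of_nonneg ht0]
    nlinarith [abs_nonneg z.re]
  refine ⟨?_, ?_⟩
  · rw [e1]
    exact lt_of_le_of_lt hle hz1
  · rw [e1, e2]
    rcases hz2 with h | h
    · rcases ht0.eq_or_lt with h0 | h0
      · right
        rw [← h0]
        simp [hpi]
      · left
        exact mul_ne_zero h0.ne' h
    · right
      exact lt_of_le_of_lt hle h

theorem cos_re (w : ℂ) : (Complex.cos w).re = Real.cos w.re * Real.cosh w.im := by
  rw [Complex.cos_eq w]
  simp [← Complex.ofReal_cos, ← Complex.ofReal_sin, ← Complex.ofReal_cosh, ← Complex.ofReal_sinh]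

theorem cos_im (w : ℂ) : (Complex.cos w).im = -(Real.sin w.re * Real.sinh w.im) := by
  rw [Complex.cos_eq w]
  simp [← Complex.ofReal_cos, ← Complex.ofReal_sin, ← Complex.ofReal_cosh, ← Complex.ofReal_sinh]

theorem sin_re (w : ℂ) : (Complex.sin w).re = Real.sin w.re * Real.cosh w.im := by
  rw [Complex.sin_eq w]
  simp [← Complex.ofReal_cos, ← Complex.ofReal_sin, ← Complex.ofReal_cosh, ← Complex.ofReal_sinh]

theorem sin_im (w : ℂ) : (Complex.sin w).im = Real.cos w.re * Real.sinh w.im := by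
  rw [Complex.sin_eq w]
  simp [← Complex.ofReal_cos, ← Complex.ofReal_sin, ← Complex.ofReal_cosh, ← Complex.ofReal_sinh]

theorem cos_re_pos {w : ℂ} (h : |w.re| < π / 2) : 0 < (Complex.cos w).re := by
  rw [cos_re]
  obtain ⟨h1, h2⟩ := abs_lt.1 h
  exact mul_pos (Real.cos_pos_of_mem_Ioo ⟨h1, h2⟩) (Real.cosh_pos _)

theorem DL_slit {w : ℂ} (h : w ∈ DL) : 2 * Complex.cos w ∈ Complex.slitPlane := by
  rw [Complex.mem_slitPlane_iff]
  by_cases hc : |w.re| < π / 2
  · left
    have := cos_re_pos hc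
    simp only [Complex.mul_re, Complex.re_ofNat, Complex.im_ofNat, zero_mul, sub_zero]
    linarith
  · right
    obtain ⟨h1, h2⟩ := h
    have h3 : w.im ≠ 0 := by tauto
    simp only [Complex.mul_im, Complex.re_ofNat, Complex.im_ofNat, zero_mul, add_zero]
    rw [cos_im]
    have hpi := Real.pi_pos
    have hs : Real.sin w.re ≠ 0 := by
      intro h0
      have hre : w.re = 0 := by
        rcases abs_lt.1 h1 with ⟨ha, hb⟩
        exact (Real.sin_eq_zero_iff_of_lt_of_lt ha hb).1 h0
      apply hc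
      rw [hre]
      simp [hpi]
    have hsh : Real.sinh w.im ≠ 0 := by
      rwa [Ne, Real.sinh_eq_zero]
    simp [hs, hsh]

theorem LL_deriv {w : ℂ} (hw : w ∈ DL) : HasDerivAt LL (Complex.log (2 * Complex.cos w)) w := by
  have := star DL_open DL_star (f := fun w => Complex.log (2 * Complex.cos w)) (by
    intro z hz
    exact ((Complex.differentiable_cos.const_mul 2).differentiableAt.clog
      (DL_slit hz)).differentiableWithinAt) hw
  exact this

/-- the domain of `LS` -/
def DS : Set ℂ := {w | 0 < w.re ∧ w.re < π}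

theorem DS_open : IsOpen DS := by
  have h1 : IsOpen {w : ℂ | 0 < w.re} := isOpen_lt continuous_const (by fun_prop)
  have h2 : IsOpen {w : ℂ | w.re < π} := isOpen_lt (by fun_prop) continuous_const
  exact h1.inter h2

theorem sin_re_pos {w : ℂ} (h : w ∈ DS) : 0 < (Complex.sin w).re := by
  rw [sin_re]
  exact mul_pos (Real.sin_pos_of_pos_of_lt_pi h.1 h.2) (Real.cosh_pos _)

theorem DS_slit {w : ℂ} (h : w ∈ DS) : 2 * Complex.sin w ∈ Complex.slitPlane := by
  rw [Complex.mem_slitPlane_iff]
  left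
  have := sin_re_pos h
  simp only [Complex.mul_re, Complex.re_ofNat, Complex.im_ofNat, zero_mul, sub_zero]
  linarith

theorem LS_deriv {w : ℂ} (hw : w ∈ DS) : HasDerivAt LS (Complex.log (2 * Complex.sin w)) w := by
  have hpi := Real.pi_pos
  have hpi' : (π : ℂ) ≠ 0 := by exact_mod_cast hpi.ne'
  set V : Set ℂ := {δ | 0 < δ.re ∧ δ.re < 1} with hVdef
  have hV : IsOpen V := by
    have h1 : IsOpen {w : ℂ | 0 < w.re} := isOpen_lt continuous_const (by fun_prop)
    have h2 : IsOpen {w : ℂ | w.re < 1} := isOpen_lt (by fun_prop) continuous_const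
    exact h1.inter h2
  have hk : ∀ δ ∈ V, ∀ t ∈ Icc (0 : ℝ) 1, Pool.Agent.W398.HT.kk δ t ∈ Complex.slitPlane := by
    rintro δ ⟨hδ1, hδ2⟩ t ⟨ht0, ht1⟩
    rw [Complex.mem_slitPlane_iff]
    left
    rcases ht0.eq_or_lt with h0 | h0
    · unfold Pool.Agent.W398.HT.kk
      rw [← h0]
      simp only [Complex.ofReal_zero, mul_zero, Pool.Agent.W398.HT.sc_zero, mul_one]
      have : (2 * (π : ℂ) * δ).re = 2 * π * δ.re := by simp
      rw [this]
      positivity
    · have h1 := Pool.Agent.W398.HT.sin_kk δ t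
      have h2 : (2 * Complex.sin (π * δ * t)).re = t * (Pool.Agent.W398.HT.kk δ t).re := by
        rw [h1]
        simp
      have h3 : (π * δ * t : ℂ) ∈ DS := by
        have e : (π * δ * t : ℂ).re = π * δ.re * t := by simp
        refine ⟨?_, ?_⟩
        · rw [e]
          positivity
        · rw [e]
          have : δ.re * t < 1 := by nlinarith
          nlinarith
      have h4 := sin_re_pos h3
      have h5 : 0 < t * (Pool.Agent.W398.HT.kk δ t).re := by
        rw [← h2]
        simp only [Complex.mul_re, Complex.re_ofNat, Complex.im_ofNat, zero_mul, sub_zero]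
        linarith
      exact (pos_iff_pos_of_mul_pos h5).1 h0
  have hmem : w / π ∈ V := by
    have e : (w / π : ℂ).re = w.re / π := by
      rw [Complex.div_ofReal_re]
    refine ⟨?_, ?_⟩
    · rw [e]
      exact div_pos hw.1 hpi
    · rw [e, div_lt_one hpi]
      exact hw.2
  have h1 := Pool.Agent.W398.HT.ss_deriv hV hk (w / π) hmem
  have h2 : HasDerivAt (fun z : ℂ => z / π) (1 / π : ℂ) w := by
    simpa using (hasDerivAt_id w).div_const (π : ℂ)
  have h3 := (h1.comp w h2).const_mul (π : ℂ)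
  have e1 : (π : ℂ) * (w / π) = w := by field_simp
  rw [e1] at h3
  have e2 : (fun z => (π : ℂ) * (Pool.Agent.W711.HT.ssF ∘ fun z : ℂ => z / π) z) = LS := by
    funext z
    unfold LS Pool.Agent.W711.HT.ssF
    simp only [Function.comp]
    rw [← mul_assoc]
    congr 1
    · field_simp
    · congr 1
      funext t
      congr 3
      field_simp
  rw [e2] at h3
  refine h3.congr_deriv ?_
  field_simp

end Pool.Agent.N496.VS
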