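import Pool.Agent.N496.VS.Geo

/-!
# The potential near `ψ = 0` (job A6): the critical equation
-/

set_option autoImplicit false

namespace Pool.Agent.N496.VS

open Filter Topology Metric Set
open scoped Real
open Pool.Agent.N561

/-- points at which everything is holomorphic -/
structure Nice (p : ℂ × ℂ) : Prop where
  slit : 1 - Complex.sin (p.1 / 2) ^ 2 * Complex.sin (p.2 / 2) ^ 2 ∈ Complex.slitPlane
  wre : 0 < (ww p).re
  h1 : (aa p).re + |p.1.re| / 2 < π / 2
  h2 : |(aa p).im| < p.2.im / 2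
  h3 : |p.2.re| / 2 < π / 2

theorem cos_an {g : ℂ × ℂ → ℂ} {p : ℂ × ℂ} (h : AnalyticAt ℂ g p) :
    AnalyticAt ℂ (fun q => Complex.cos (g q)) p :=
  (Complex.differentiable_cos.analyticAt _).comp h

theorem sin_an {g : ℂ × ℂ → ℂ} {p : ℂ × ℂ} (h : AnalyticAt ℂ g p) :
    AnalyticAt ℂ (fun q => Complex.sin (g q)) p :=
  (Complex.differentiable_sin.analyticAt _).comp h

theorem ww_analytic {p : ℂ × ℂ}
    (h : 1 - Complex.sin (p.1 / 2) ^ 2 * Complex.sin (p.2 / 2) ^ 2 ∈ Complex.slitPlane) :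
    AnalyticAt ℂ ww p := by
  have d1 : AnalyticAt ℂ (fun p : ℂ × ℂ => p.1 / 2) p := analyticAt_fst.div_const
  have d2 : AnalyticAt ℂ (fun p : ℂ × ℂ => p.2 / 2) p := analyticAt_snd.div_const
  have hs : AnalyticAt ℂ (fun p : ℂ × ℂ => 1 - Complex.sin (p.1 / 2) ^ 2 *
      Complex.sin (p.2 / 2) ^ 2) p := by
    have h1 : AnalyticAt ℂ (fun p : ℂ × ℂ => Complex.sin (p.1 / 2)) p := sin_an d1
    have h2 : AnalyticAt ℂ (fun p : ℂ × ℂ => Complex.sin (p.2 / 2)) p := sin_an d2
    exact analyticAt_const.sub ((h1.pow 2).mul (h2.pow 2))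
  have hc1 : AnalyticAt ℂ (fun p : ℂ × ℂ => Complex.cos (p.1 / 2)) p := cos_an d1
  have hc2 : AnalyticAt ℂ (fun p : ℂ × ℂ => Complex.cos (p.2 / 2)) p := cos_an d2
  have hp : AnalyticAt ℂ (fun p : ℂ × ℂ => (1 - Complex.sin (p.1 / 2) ^ 2 *
      Complex.sin (p.2 / 2) ^ 2) ^ (1 / 2 : ℂ)) p := hs.cpow analyticAt_const h
  refine AnalyticAt.div (hc1.mul hc2) hp ?_
  rw [Ne, Complex.cpow_eq_zero_iff]
  intro h0
  exact Complex.slitPlane_ne_zero h h0.1

theorem aa_analytic {p : ℂ × ℂ}
    (h : 1 - Complex.sin (p.1 / 2) ^ 2 * Complex.sin (p.2 / 2) ^ 2 ∈ Complex.slitPlane)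
    (hw : 0 < (ww p).re) : AnalyticAt ℂ aa p :=
  (at_analytic hw).comp (ww_analytic h)

namespace Nice

variable {p : ℂ × ℂ} (h : Nice p)
include h

theorem re_pos : 0 < (aa p).re := at_re_pos h.wre

theorem re_lt : (aa p).re < π / 2 := at_re_lt h.wre

theorem memS : aa p ∈ DS := by
  have := Real.pi_pos
  exact ⟨h.re_pos, by linarith [h.re_lt]⟩

theorem abs1 : |(aa p + p.1 / 2).re| < π / 2 ∧ |(aa p - p.1 / 2).re| < π / 2 := by
  have e1 : (aa p + p.1 / 2).re = (aa p).re + p.1.re / 2 := by simp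
  have e2 : (aa p - p.1 / 2).re = (aa p).re - p.1.re / 2 := by simp
  rw [e1, e2]
  have h1 := h.h1
  have h2 := h.re_pos
  have h3 := neg_abs_le p.1.re
  have h4 := le_abs_self p.1.re
  constructor <;> rw [abs_lt] <;> constructor <;> linarith

theorem mem1 : aa p + p.1 / 2 ∈ DL := by
  have h1 := h.abs1.1
  have := Real.pi_pos
  exact ⟨by linarith, Or.inr h1⟩

theorem mem2 : aa p - p.1 / 2 ∈ DL := by
  have h1 := h.abs1.2
  have := Real.pi_pos
  exact ⟨by linarith, Or.inr h1⟩

theorem mem3 : aa p + p.2 / 2 ∈ DL := by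
  have e1 : (aa p + p.2 / 2).re = (aa p).re + p.2.re / 2 := by simp
  have e2 : (aa p + p.2 / 2).im = (aa p).im + p.2.im / 2 := by simp
  have h1 := h.re_pos
  have h2 := h.re_lt
  have h3 := h.h3
  have h4 := h.h2
  have h5 := neg_abs_le p.2.re
  have h6 := le_abs_self p.2.re
  refine ⟨?_, Or.inl ?_⟩
  · rw [e1, abs_lt]
    constructor <;> linarith
  · rw [e2]
    have := (abs_lt.1 h4).1
    linarith

theorem mem4 : aa p - p.2 / 2 ∈ DL := by
  have e1 : (aa p - p.2 / 2).re = (aa p).re - p.2.re / 2 := by simp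
  have e2 : (aa p - p.2 / 2).im = (aa p).im - p.2.im / 2 := by simp
  have h1 := h.re_pos
  have h2 := h.re_lt
  have h3 := h.h3
  have h4 := h.h2
  have h5 := neg_abs_le p.2.re
  have h6 := le_abs_self p.2.re
  refine ⟨?_, Or.inl ?_⟩
  · rw [e1, abs_lt]
    constructor <;> linarith
  · rw [e2]
    have := (abs_lt.1 h4).2
    linarith

theorem ana : AnalyticAt ℂ aa p := aa_analytic h.slit h.wre

end Nice

theorem nice_base {φ : ℂ} (h : φ ∈ GG) : Nice (0, φ) := by
  have hw : 0 < (ww (0, φ)).re := by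
    rw [ww_zero]
    exact GG_cre h
  have e : (aa (0, φ)).re < π / 2 := at_re_lt hw
  refine ⟨?_, hw, ?_, im_lt h, ?_⟩
  · simp
  · simpa using e
  · have := GG_re h
    have e : (φ / 2).re = φ.re / 2 := by simp
    rw [e, abs_div, abs_two] at this
    exact this

theorem nice_near {p : ℂ × ℂ} (h : Nice p) : ∀ᶠ q in 𝓝 p, Nice q := by
  have c1 : ContinuousAt ww p := (ww_analytic h.slit).continuousAt
  have c2 : ContinuousAt aa p := h.ana.continuousAt
  have c3 : ContinuousAt (fun p : ℂ × ℂ => 1 - Complex.sin (p.1 / 2) ^ 2 *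
      Complex.sin (p.2 / 2) ^ 2) p := by
    have : Continuous (fun p : ℂ × ℂ => 1 - Complex.sin (p.1 / 2) ^ 2 *
      Complex.sin (p.2 / 2) ^ 2) := by fun_prop
    exact this.continuousAt
  have e1 := c3.eventually (Complex.isOpen_slitPlane.mem_nhds h.slit)
  have e2 : ∀ᶠ q in 𝓝 p, 0 < (ww q).re :=
    (Complex.continuous_re.continuousAt.comp c1).eventually (isOpen_Ioi.mem_nhds h.wre)
  have e3 : ∀ᶠ q in 𝓝 p, (aa q).re + |q.1.re| / 2 < π / 2 := by
    have c4 : ContinuousAt (fun q : ℂ × ℂ => (aa q).re + |q.1.re| / 2) p := by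
      apply ContinuousAt.add
      · exact Complex.continuous_re.continuousAt.comp c2
      · have : Continuous (fun q : ℂ × ℂ => |q.1.re| / 2) := by fun_prop
        exact this.continuousAt
    exact c4.eventually (isOpen_Iio.mem_nhds h.h1)
  have e4 : ∀ᶠ q in 𝓝 p, |(aa q).im| < q.2.im / 2 := by
    have c4 : ContinuousAt (fun q : ℂ × ℂ => |(aa q).im| - q.2.im / 2) p := by
      apply ContinuousAt.sub
      · exact (Complex.continuous_im.continuousAt.comp c2).abs
      · have : Continuous (fun q : ℂ × ℂ => q.2.im / 2) := by fun_prop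
        exact this.continuousAt
    have := c4.eventually (isOpen_Iio.mem_nhds (show |(aa p).im| - p.2.im / 2 < 0 by
      linarith [h.h2]))
    filter_upwards [this] with q hq
    have : |(aa q).im| - q.2.im / 2 < 0 := hq
    linarith
  have e5 : ∀ᶠ q in 𝓝 p, |q.2.re| / 2 < π / 2 := by
    have : Continuous (fun q : ℂ × ℂ => |q.2.re| / 2) := by fun_prop
    exact this.continuousAt.eventually (isOpen_Iio.mem_nhds h.h3)
  filter_upwards [e1, e2, e3, e4, e5] with q h1 h2 h3 h4 h5
  exact ⟨h1, h2, h3, h4, h5⟩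

/-! ### Trigonometric identities -/

theorem cos_two (z : ℂ) : Complex.cos z = 2 * Complex.cos (z / 2) ^ 2 - 1 := by
  rw [← Complex.cos_two_mul]
  congr 1
  ring

theorem sin_two (z : ℂ) : Complex.sin (z / 2) ^ 2 = 1 - Complex.cos (z / 2) ^ 2 := by
  rw [← Complex.sin_sq_add_cos_sq (z / 2)]
  ring

theorem ww_sq {p : ℂ × ℂ} (h : Nice p) : ww p ^ 2 * (1 - Complex.sin (p.1 / 2) ^ 2 *
    Complex.sin (p.2 / 2) ^ 2) = Complex.cos (p.1 / 2) ^ 2 * Complex.cos (p.2 / 2) ^ 2 := by
  unfold ww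
  have h0 := Complex.slitPlane_ne_zero h.slit
  set Q := 1 - Complex.sin (p.1 / 2) ^ 2 * Complex.sin (p.2 / 2) ^ 2
  have e : (Q ^ (1 / 2 : ℂ)) ^ 2 = Q := by
    rw [← Complex.cpow_nat_mul]
    norm_num
  rw [div_pow, e]
  field_simp

theorem base_eq {p : ℂ × ℂ} (h : Nice p) : Complex.cos (aa p) ^ 2 *
    (Complex.cos (p.1 / 2) ^ 2 + Complex.cos (p.2 / 2) ^ 2) = 1 - Complex.sin (p.1 / 2) ^ 2 *
      Complex.sin (p.2 / 2) ^ 2 := by
  have h1 := ww_sq h
  have h2 : Complex.cos (aa p) ^ 2 * (1 + ww p ^ 2) = 1 := at_cos_sq h.wre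
  have h3 : 1 - Complex.sin (p.1 / 2) ^ 2 * Complex.sin (p.2 / 2) ^ 2 +
      Complex.cos (p.1 / 2) ^ 2 * Complex.cos (p.2 / 2) ^ 2 =
      Complex.cos (p.1 / 2) ^ 2 + Complex.cos (p.2 / 2) ^ 2 := by
    rw [sin_two, sin_two]
    ring
  rw [← h3, ← h1]
  set Q := 1 - Complex.sin (p.1 / 2) ^ 2 * Complex.sin (p.2 / 2) ^ 2
  linear_combination Q * h2

theorem den_nz {p : ℂ × ℂ} (h : Nice p) : 2 + Complex.cos p.1 + Complex.cos p.2 ≠ 0 := by
  intro h0
  have h1 := base_eq h
  have e : 2 + Complex.cos p.1 + Complex.cos p.2 =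
      2 * (Complex.cos (p.1 / 2) ^ 2 + Complex.cos (p.2 / 2) ^ 2) := by
    rw [cos_two p.1, cos_two p.2]
    ring
  rw [e] at h0
  have h2 : Complex.cos (p.1 / 2) ^ 2 + Complex.cos (p.2 / 2) ^ 2 = 0 := by
    simpa using h0
  rw [h2, mul_zero] at h1
  exact Complex.slitPlane_ne_zero h.slit h1.symm

theorem cC {p : ℂ × ℂ} (h : Nice p) : Complex.cos (2 * aa p) *
    (2 + Complex.cos p.1 + Complex.cos p.2) = 1 - Complex.cos p.1 * Complex.cos p.2 := by
  have h1 := base_eq h
  rw [Complex.cos_two_mul, cos_two p.1, cos_two p.2]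
  rw [sin_two, sin_two] at h1
  linear_combination 4 * h1

theorem prod_cos (a x : ℂ) : 2 * Complex.cos (a + x / 2) * (2 * Complex.cos (a - x / 2)) =
    2 * (Complex.cos (2 * a) + Complex.cos x) := by
  rw [Complex.cos_add, Complex.cos_sub, Complex.cos_two_mul, cos_two x]
  have h1 := Complex.sin_sq_add_cos_sq a
  have h2 := Complex.sin_sq_add_cos_sq (x / 2)
  have e1 : Complex.sin a ^ 2 = 1 - Complex.cos a ^ 2 := by linear_combination h1
  have e2 : Complex.sin (x / 2) ^ 2 = 1 - Complex.cos (x / 2) ^ 2 := by linear_combination h2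
  have : 2 * (Complex.cos a * Complex.cos (x / 2) - Complex.sin a * Complex.sin (x / 2)) *
    (2 * (Complex.cos a * Complex.cos (x / 2) + Complex.sin a * Complex.sin (x / 2))) =
    4 * (Complex.cos a ^ 2 * Complex.cos (x / 2) ^ 2 -
      Complex.sin a ^ 2 * Complex.sin (x / 2) ^ 2) := by ring
  rw [this, e1, e2]
  ring

theorem sq_sin (a : ℂ) : (2 * Complex.sin a) ^ 2 = 2 * (1 - Complex.cos (2 * a)) := by
  have h1 := Complex.sin_sq_add_cos_sq a
  rw [Complex.cos_two_mul]
  linear_combination 4 * h1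

/-! ### The critical equation -/

/-- the derivative of the potential at the critical point -/
noncomputable def EE (p : ℂ × ℂ) : ℂ := Complex.log (2 * Complex.cos (aa p + p.1 / 2)) +
  Complex.log (2 * Complex.cos (aa p - p.1 / 2)) +
  Complex.log (2 * Complex.cos (aa p + p.2 / 2)) +
  Complex.log (2 * Complex.cos (aa p - p.2 / 2)) - 4 * Complex.log (2 * Complex.sin (aa p))

theorem EE_exp {p : ℂ × ℂ} (h : Nice p) : Complex.exp (EE p) = 1 := by
  have n1 := Complex.slitPlane_ne_zero (DL_slit h.mem1)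
  have n2 := Complex.slitPlane_ne_zero (DL_slit h.mem2)
  have n3 := Complex.slitPlane_ne_zero (DL_slit h.mem3)
  have n4 := Complex.slitPlane_ne_zero (DL_slit h.mem4)
  have n5 := Complex.slitPlane_ne_zero (DS_slit h.memS)
  unfold EE
  rw [Complex.exp_sub, Complex.exp_add, Complex.exp_add, Complex.exp_add, Complex.exp_log n1,
    Complex.exp_log n2, Complex.exp_log n3, Complex.exp_log n4]
  have e4 : Complex.exp (4 * Complex.log (2 * Complex.sin (aa p))) =
      (2 * Complex.sin (aa p)) ^ 4 := by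
    have : (4 : ℂ) * Complex.log (2 * Complex.sin (aa p)) =
      ((4 : ℕ) : ℂ) * Complex.log (2 * Complex.sin (aa p)) := by norm_num
    rw [this, Complex.exp_nat_mul, Complex.exp_log n5]
  rw [e4, div_eq_one_iff_eq (pow_ne_zero 4 n5)]
  have e5 : (2 * Complex.sin (aa p)) ^ 4 = ((2 * Complex.sin (aa p)) ^ 2) ^ 2 := by ring
  rw [e5, sq_sin, prod_cos, mul_assoc, prod_cos]
  have := cC h
  linear_combination 4 * this

theorem eq_zero_of_exp {z : ℂ} (h : Complex.exp z = 1) (h2 : |z.im| < 2 * π) : z = 0 := by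
  rw [Complex.exp_eq_one_iff] at h
  obtain ⟨n, hn⟩ := h
  have e : z.im = n * (2 * π) := by
    rw [hn]
    simp
  rw [e, abs_mul, abs_of_pos (by positivity : (0:ℝ) < 2 * π)] at h2
  have hpi := Real.pi_pos
  have h3 : |(n : ℝ)| < 1 := by
    by_contra h4
    push Not at h4
    nlinarith
  have h4 : n = 0 := by
    have : |n| < 1 := by exact_mod_cast h3
    exact Int.abs_lt_one_iff.1 this
  rw [hn, h4]
  simp

theorem path_zero {f : ℝ → ℂ} (hc : ContinuousOn f (Icc 0 1))
    (he : ∀ s ∈ Icc (0:ℝ) 1, Complex.exp (f s) = 1) (h0 : f 0 = 0) : f 1 = 0 := by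
  have hpi := Real.pi_pos
  have key : ∀ s ∈ Icc (0:ℝ) 1, (f s).im ≠ π ∧ (f s).im ≠ -π := by
    intro s hs
    obtain ⟨n, hn⟩ := Complex.exp_eq_one_iff.1 (he s hs)
    have e : (f s).im = n * (2 * π) := by
      rw [hn]
      simp
    constructor
    · intro h
      rw [e] at h
      have h1 : (n : ℝ) * 2 = 1 := by
        have : ((n : ℝ) * 2 - 1) * π = 0 := by linear_combination h
        have := (mul_eq_zero.1 this).resolve_right hpi.ne'
        linarith
      have h2 : n * 2 = 1 := by exact_mod_cast h1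
      omega
    · intro h
      rw [e] at h
      have h1 : (n : ℝ) * 2 = -1 := by
        have : ((n : ℝ) * 2 + 1) * π = 0 := by linear_combination h
        have := (mul_eq_zero.1 this).resolve_right hpi.ne'
        linarith
      have h2 : n * 2 = -1 := by exact_mod_cast h1
      omega
  have hg : ContinuousOn (fun s => (f s).im) (Icc 0 1) := Complex.continuous_im.comp_continuousOn hc
  apply eq_zero_of_exp (he 1 (by simp))
  by_contra h
  push Not at h
  rcases le_abs.1 h with h | h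
  · have := intermediate_value_Icc zero_le_one hg
    have hm : π ∈ Icc ((f 0).im) ((f 1).im) := by
      rw [h0]
      exact ⟨by simpa using hpi.le, by linarith⟩
    obtain ⟨s, hs, hs'⟩ := this hm
    exact (key s hs).1 hs'
  · have := intermediate_value_Icc' zero_le_one hg
    have hm : -π ∈ Icc ((f 1).im) ((f 0).im) := by
      rw [h0]
      exact ⟨by linarith, by simpa using hpi.le⟩
    obtain ⟨s, hs, hs'⟩ := this hm
    exact (key s hs).2 hs'

theorem EE_cont {p : ℂ × ℂ} (h : Nice p) : ContinuousAt EE p := by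
  have ha := h.ana.continuousAt
  have h1 : ContinuousAt (fun q : ℂ × ℂ => q.1 / 2) p := by
    have : Continuous (fun q : ℂ × ℂ => q.1 / 2) := by fun_prop
    exact this.continuousAt
  have h2 : ContinuousAt (fun q : ℂ × ℂ => q.2 / 2) p := by
    have : Continuous (fun q : ℂ × ℂ => q.2 / 2) := by fun_prop
    exact this.continuousAt
  have lc : ∀ {g : ℂ × ℂ → ℂ}, ContinuousAt g p → g p ∈ DL →
      ContinuousAt (fun q => Complex.log (2 * Complex.cos (g q))) p := by
    intro g hg hm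
    exact ContinuousAt.clog (f := fun q => 2 * Complex.cos (g q))
      (continuousAt_const.mul (Complex.continuous_cos.continuousAt.comp hg)) (DL_slit hm)
  have hs : ContinuousAt (fun q => Complex.log (2 * Complex.sin (aa q))) p := by
    exact ContinuousAt.clog (f := fun q => 2 * Complex.sin (aa q))
      (continuousAt_const.mul (Complex.continuous_sin.continuousAt.comp ha)) (DS_slit h.memS)
  unfold EE
  exact ((((lc (ha.add h1) h.mem1).add (lc (ha.sub h1) h.mem2)).add
    (lc (ha.add h2) h.mem3)).add (lc (ha.sub h2) h.mem4)).sub (continuousAt_const.mul hs)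

/-- on the imaginary axis the critical point is real -/
theorem aa_real (Y : ℝ) : aa (0, Y * Complex.I) = (Real.arctan (Real.cosh (Y / 2)) : ℝ) := by
  unfold aa
  rw [ww_zero]
  have : (Y : ℂ) * Complex.I / 2 = ((Y / 2 : ℝ) : ℂ) * Complex.I := by
    push_cast
    ring
  rw [this, Complex.cos_mul_I, Complex.ofReal_arctan, Complex.ofReal_cosh]

theorem arg_lt {z : ℂ} (h : |z.re| < π / 2) : |(Complex.log (2 * Complex.cos z)).im| < π / 2 := by
  rw [Complex.log_im, Complex.abs_arg_lt_pi_div_two_iff]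
  left
  have := cos_re_pos h
  simp only [Complex.mul_re, Complex.re_ofNat, Complex.im_ofNat, zero_mul, sub_zero]
  linarith

theorem EE_axis {Y : ℝ} (h : (Y * Complex.I : ℂ) ∈ GG) : EE (0, Y * Complex.I) = 0 := by
  have hn := nice_base h
  apply eq_zero_of_exp (EE_exp hn)
  have ha := aa_real Y
  set α : ℝ := Real.arctan (Real.cosh (Y / 2)) with hα
  have hα1 : 0 < α := by
    have := hn.re_pos
    rw [ha] at this
    simpa using this
  have hα2 : α < π / 2 := by
    have := hn.re_lt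
    rw [ha] at this
    simpa using this
  have hpi := Real.pi_pos
  unfold EE
  rw [ha]
  simp only [zero_div, add_zero, sub_zero]
  have r1 : (Complex.log (2 * Complex.cos (α : ℂ))).im = 0 := by
    have : 2 * Complex.cos (α : ℂ) = ((2 * Real.cos α : ℝ) : ℂ) := by push_cast; ring
    rw [this, Complex.log_im, Complex.arg_ofReal_of_nonneg]
    have := Real.cos_pos_of_mem_Ioo (x := α) ⟨by linarith, hα2⟩
    positivity
  have r2 : (Complex.log (2 * Complex.sin (α : ℂ))).im = 0 := by
    have : 2 * Complex.sin (α : ℂ) = ((2 * Real.sin α : ℝ) : ℂ) := by push_cast; ring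
    rw [this, Complex.log_im, Complex.arg_ofReal_of_nonneg]
    have := Real.sin_pos_of_pos_of_lt_pi hα1 (by linarith)
    positivity
  have r3 := arg_lt (z := (α : ℂ) + Y * Complex.I / 2) (by
    have : ((α : ℂ) + Y * Complex.I / 2).re = α := by simp
    rw [this, abs_of_pos hα1]
    exact hα2)
  have r4 := arg_lt (z := (α : ℂ) - Y * Complex.I / 2) (by
    have : ((α : ℂ) - Y * Complex.I / 2).re = α := by simp
    rw [this, abs_of_pos hα1]
    exact hα2)
  have e : (Complex.log (2 * Complex.cos (α : ℂ)) + Complex.log (2 * Complex.cos (α : ℂ)) +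
      Complex.log (2 * Complex.cos ((α : ℂ) + Y * Complex.I / 2)) +
      Complex.log (2 * Complex.cos ((α : ℂ) - Y * Complex.I / 2)) -
      4 * Complex.log (2 * Complex.sin (α : ℂ))).im =
      (Complex.log (2 * Complex.cos ((α : ℂ) + Y * Complex.I / 2))).im +
      (Complex.log (2 * Complex.cos ((α : ℂ) - Y * Complex.I / 2))).im := by
    simp only [Complex.sub_im, Complex.add_im, Complex.mul_im, r1, r2]
    simp
  rw [e]
  refine (abs_add_le _ _).trans_lt ?_
  linarith

theorem path_cont {φ : ℂ} : Continuous (fun s : ℝ =>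
    ((0 : ℂ), ((s * φ.re : ℝ) + φ.im * Complex.I : ℂ))) := by
  fun_prop

/-- the critical equation on `ψ = 0` -/
theorem EE_base {φ : ℂ} (h : φ ∈ GG) : EE (0, φ) = 0 := by
  have key := path_zero (f := fun s : ℝ => EE (0, ((s * φ.re : ℝ) + φ.im * Complex.I : ℂ)))
    (by
      intro s hs
      have hn := nice_base (GG_shrink h hs.1 hs.2)
      have := ContinuousAt.comp (f := fun s : ℝ =>
        ((0 : ℂ), ((s * φ.re : ℝ) + φ.im * Complex.I : ℂ))) (EE_cont hn) path_cont.continuousAt
      exact this.continuousWithinAt)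
    (fun s hs => EE_exp (nice_base (GG_shrink h hs.1 hs.2)))
    (by
      have hg := GG_shrink h le_rfl zero_le_one
      simp only [zero_mul, Complex.ofReal_zero, zero_add] at hg ⊢
      exact EE_axis hg)
  simpa [Complex.re_add_im] using key

/-- the critical equation near `ψ = 0` -/
theorem EE_near {φ : ℂ} (h : φ ∈ GG) : ∀ᶠ p in 𝓝 ((0 : ℂ), φ), EE p = 0 := by
  have hn := nice_base h
  have h1 := (EE_cont hn)
  have h2 : ∀ᶠ p in 𝓝 ((0 : ℂ), φ), ‖EE p‖ < 1 := by
    have h3 : ‖EE (0, φ)‖ < 1 := by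
      rw [EE_base h]
      simp
    exact h1.norm.eventually (isOpen_Iio.mem_nhds h3)
  filter_upwards [nice_near hn, h2] with p hp hp2
  apply eq_zero_of_exp (EE_exp hp)
  have := Complex.abs_im_le_norm (EE p)
  have := Real.pi_gt_three
  linarith

end Pool.Agent.N496.VS
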