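import Pool.Agent.N496.VS.Der

/-!
# The potential near `ψ = 0` (job A6): proof of `S_SGP`
-/

set_option autoImplicit false

namespace Pool.Agent.N496.VS

open Filter Topology Metric Set
open scoped Real
open Pool.Agent.N561
open Pool.Agent.W711.HT (Lg Rc)

/-! ### The second derivative in `δ` -/

theorem TF_cont {p : ℂ × ℂ} (h : Nice p) :
    ContinuousAt (fun p : ℂ × ℂ => TF p.1 p.2 (dst p.1 p.2)) p := by
  have e : (fun p : ℂ × ℂ => TF p.1 p.2 (dst p.1 p.2)) = fun p : ℂ × ℂ =>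
      -π * (Complex.sin (aa p + p.1 / 2) / Complex.cos (aa p + p.1 / 2) +
        Complex.sin (aa p - p.1 / 2) / Complex.cos (aa p - p.1 / 2) +
        Complex.sin (aa p + p.2 / 2) / Complex.cos (aa p + p.2 / 2) +
        Complex.sin (aa p - p.2 / 2) / Complex.cos (aa p - p.2 / 2)) -
        4 * π * (Complex.cos (aa p) / Complex.sin (aa p)) := by
    funext p
    unfold TF
    rw [pi_dst]
  rw [e]
  have ha := h.ana.continuousAt
  have h1 : ContinuousAt (fun q : ℂ × ℂ => q.1 / 2) p := by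
    have : Continuous (fun q : ℂ × ℂ => q.1 / 2) := by fun_prop
    exact this.continuousAt
  have h2 : ContinuousAt (fun q : ℂ × ℂ => q.2 / 2) p := by
    have : Continuous (fun q : ℂ × ℂ => q.2 / 2) := by fun_prop
    exact this.continuousAt
  have lc : ∀ {g : ℂ × ℂ → ℂ}, ContinuousAt g p → g p ∈ DL →
      ContinuousAt (fun q => Complex.sin (g q) / Complex.cos (g q)) p := by
    intro g hg hm
    have hc : ContinuousAt (fun q => Complex.cos (g q)) p :=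
      Complex.continuous_cos.continuousAt.comp hg
    have hs : ContinuousAt (fun q => Complex.sin (g q)) p :=
      Complex.continuous_sin.continuousAt.comp hg
    refine hs.div hc ?_
    intro h0
    apply Complex.slitPlane_ne_zero (DL_slit hm)
    rw [h0, mul_zero]
  have l5 : ContinuousAt (fun q => Complex.cos (aa q) / Complex.sin (aa q)) p := by
    have hc : ContinuousAt (fun q => Complex.cos (aa q)) p :=
      Complex.continuous_cos.continuousAt.comp ha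
    have hs : ContinuousAt (fun q => Complex.sin (aa q)) p :=
      Complex.continuous_sin.continuousAt.comp ha
    refine hc.div hs ?_
    intro h0
    apply Complex.slitPlane_ne_zero (DS_slit h.memS)
    rw [h0, mul_zero]
  exact (continuousAt_const.mul ((((lc (ha.add h1) h.mem1).add (lc (ha.sub h1) h.mem2)).add
    (lc (ha.add h2) h.mem3)).add (lc (ha.sub h2) h.mem4))).sub (continuousAt_const.mul l5)

theorem TF_base {φ : ℂ} (h : φ ∈ GG) : (TF 0 φ (dst 0 φ)).re < 0 := by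
  have hn := nice_base h
  have hpi := Real.pi_pos
  set u := Complex.cos (φ / 2) with hu
  set s := Complex.sin (φ / 2) with hs
  set a := aa (0, φ) with ha
  have hu0 : u ≠ 0 := by
    intro h0
    have := GG_cre h
    rw [← hu, h0] at this
    simp at this
  have hc0 : Complex.cos a ≠ 0 := cos_aa_ne hn
  have hsin : Complex.sin a = u * Complex.cos a := by
    have h1 : Complex.sin (aa (0, φ)) = ww (0, φ) * Complex.cos (aa (0, φ)) := at_sin hn.wre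
    rwa [ww_zero] at h1
  have c1 : Complex.cos (a - φ / 2) = Complex.cos a * u * (1 + s) := base_cos_sub h
  have c2 : Complex.cos (a + φ / 2) = Complex.cos a * u * (1 - s) := base_cos_add h
  have s1 : Complex.sin (a - φ / 2) = Complex.cos a * (u ^ 2 - s) := by
    rw [Complex.sin_sub, hsin]
    ring
  have s2 : Complex.sin (a + φ / 2) = Complex.cos a * (u ^ 2 + s) := by
    rw [Complex.sin_add, hsin]
    ring
  have hss : s ^ 2 = 1 - u ^ 2 := sin_two φ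
  have n1 : 1 + s ≠ 0 := by
    intro h0
    apply Complex.slitPlane_ne_zero (DL_slit hn.mem4)
    change 2 * Complex.cos (a - φ / 2) = 0
    rw [c1, h0]
    ring
  have n2 : 1 - s ≠ 0 := by
    intro h0
    apply Complex.slitPlane_ne_zero (DL_slit hn.mem3)
    change 2 * Complex.cos (a + φ / 2) = 0
    rw [c2, h0]
    ring
  have e : TF 0 φ (dst 0 φ) = -(2 * π : ℝ) * ((1 + u ^ 2) ^ 2 / u ^ 3) := by
    unfold TF
    rw [pi_dst, ← ha]
    simp only [zero_div, add_zero, sub_zero]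
    rw [c1, c2, s1, s2, hsin]
    have e1 : Complex.cos a * (u ^ 2 + s) / (Complex.cos a * u * (1 - s)) +
        Complex.cos a * (u ^ 2 - s) / (Complex.cos a * u * (1 + s)) = 2 / u ^ 3 := by
      have h1 : (1 - s) * (1 + s) = u ^ 2 := by linear_combination -hss
      have h2 : Complex.cos a * (u ^ 2 + s) / (Complex.cos a * u * (1 - s)) +
          Complex.cos a * (u ^ 2 - s) / (Complex.cos a * u * (1 + s)) =
          ((u ^ 2 + s) * (1 + s) + (u ^ 2 - s) * (1 - s)) / (u * ((1 - s) * (1 + s))) := by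
        field_simp
      rw [h2, h1]
      have h3 : (u ^ 2 + s) * (1 + s) + (u ^ 2 - s) * (1 - s) = 2 := by
        linear_combination 2 * hss
      rw [h3]
      field_simp
    have e2 : u * Complex.cos a / Complex.cos a = u := by field_simp
    have e3 : Complex.cos a / (u * Complex.cos a) = 1 / u := by field_simp
    rw [e2, e3]
    have e4 : u + u + Complex.cos a * (u ^ 2 + s) / (Complex.cos a * u * (1 - s)) +
        Complex.cos a * (u ^ 2 - s) / (Complex.cos a * u * (1 + s)) = 2 * u + 2 / u ^ 3 := by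
      rw [← e1]
      ring
    rw [e4]
    push_cast
    field_simp
    ring
  rw [e]
  have h1 := neg_re h
  rw [← hu] at h1
  rw [show (-(2 * π : ℝ) * ((1 + u ^ 2) ^ 2 / u ^ 3) : ℂ) =
    ((-(2 * π) : ℝ) : ℂ) * ((1 + u ^ 2) ^ 2 / u ^ 3) by push_cast; ring]
  rw [Complex.re_ofReal_mul]
  nlinarith

/-! ### The second derivative in `ψ` -/

/-- the first derivative in `ψ` -/
noncomputable def g1 (p : ℂ × ℂ) : ℂ := 1 / (2 * π) * (Complex.log (2 * Complex.cos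
  (aa p + p.1 / 2)) - Complex.log (2 * Complex.cos (aa p - p.1 / 2)))

theorem lc_an {g : ℂ × ℂ → ℂ} {p : ℂ × ℂ} (hg : AnalyticAt ℂ g p) (hm : g p ∈ DL) :
    AnalyticAt ℂ (fun q => Complex.log (2 * Complex.cos (g q))) p :=
  AnalyticAt.clog (f := fun q => 2 * Complex.cos (g q)) (analyticAt_const.mul (cos_an hg))
    (DL_slit hm)

theorem g1_an {p : ℂ × ℂ} (h : Nice p) : AnalyticAt ℂ g1 p := by
  have d1 : AnalyticAt ℂ (fun p : ℂ × ℂ => p.1 / 2) p := analyticAt_fst.div_const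
  exact analyticAt_const.mul ((lc_an (h.ana.add d1) h.mem1).sub (lc_an (h.ana.sub d1) h.mem2))

theorem g1_fd {p : ℂ × ℂ} (h : Nice p) :
    HasDerivAt (fun z => g1 (z, p.2)) (fderiv ℂ g1 p (1, 0)) p.1 := by
  have h1 : HasFDerivAt g1 (fderiv ℂ g1 p) (p.1, p.2) := (g1_an h).differentiableAt.hasFDerivAt
  have h2 : HasDerivAt (fun z : ℂ => (z, p.2)) ((1 : ℂ), (0 : ℂ)) p.1 :=
    (hasDerivAt_id p.1).prodMk (hasDerivAt_const p.1 p.2)
  exact h1.comp_hasDerivAt p.1 h2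

theorem g1_base {φ : ℂ} (h : φ ∈ GG) :
    fderiv ℂ g1 (0, φ) (1, 0) = -(1 / (2 * π)) * Complex.cos (φ / 2) := by
  have hn := nice_base h
  have h1 := (g1_fd hn).deriv
  rw [← h1]
  simp only
  have h0 : DifferentiableAt ℂ (fun z : ℂ => aa (z, φ)) 0 := by
    have h1 : DifferentiableAt ℂ aa ((0 : ℂ), φ) := hn.ana.differentiableAt
    exact DifferentiableAt.comp (f := fun z : ℂ => (z, φ)) 0 h1 (by fun_prop)
  obtain ⟨d, hd⟩ : ∃ d, HasDerivAt (fun z : ℂ => aa (z, φ)) d 0 := ⟨_, h0.hasDerivAt⟩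
  have i2 : HasDerivAt (fun z : ℂ => z / 2) (1 / 2 : ℂ) 0 := (hasDerivAt_id 0).div_const 2
  have k1 := lc_deriv (g := fun z : ℂ => aa (z, φ) + z / 2) (hd.add i2) hn.mem1
  have k2 := lc_deriv (g := fun z : ℂ => aa (z, φ) - z / 2) (hd.sub i2) hn.mem2
  have k : deriv (fun z => g1 (z, φ)) 0 = _ := ((k1.sub k2).const_mul (1 / (2 * π) : ℂ)).deriv
  rw [k]
  simp only [zero_div, add_zero, sub_zero]
  have ht : Complex.sin (aa (0, φ)) / Complex.cos (aa (0, φ)) = Complex.cos (φ / 2) := by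
    rw [← Complex.tan_eq_sin_div_cos, ← ww_zero]
    exact at_tan hn.wre
  rw [ht]
  ring

theorem g1_cont {p : ℂ × ℂ} (h : Nice p) : ContinuousAt (fun p => fderiv ℂ g1 p (1, 0)) p := by
  have h1 : ContinuousAt (fderiv ℂ g1) p := (g1_an h).fderiv.continuousAt
  exact h1.clm_apply continuousAt_const

/-! ### Evenness -/

theorem aa_neg (ψ φ : ℂ) : aa (-ψ, φ) = aa (ψ, φ) := by
  unfold aa ww
  simp only [neg_div, Complex.cos_neg, Complex.sin_neg, neg_sq]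

theorem sg_neg (ψ φ : ℂ) : sg (-ψ) φ = sg ψ φ := by
  rw [sg_eq, sg_eq, aa_neg]
  have e1 : aa (ψ, φ) + -ψ / 2 = aa (ψ, φ) - ψ / 2 := by ring
  have e2 : aa (ψ, φ) - -ψ / 2 = aa (ψ, φ) + ψ / 2 := by ring
  rw [e1, e2]
  ring

/-- all the properties at one point -/
structure Pt (c C : ℝ) (p : ℂ × ℂ) : Prop where
  mem : p.2 ∈ GG
  nice : Nice p
  crit : EE p = 0
  d2 : D2 p = 0
  bd : ‖sg p.1 p.2‖ ≤ C
  neg : (TF p.1 p.2 (dst p.1 p.2)).re < 0
  conc : (fderiv ℂ g1 p (1, 0)).re < -c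

theorem pt_near {φ : ℂ} (h : φ ∈ GG) : ∃ c C : ℝ, 0 < c ∧ ∀ᶠ p in 𝓝 ((0 : ℂ), φ), Pt c C p := by
  have hn := nice_base h
  have hpi := Real.pi_pos
  have hu : 0 < (Complex.cos (φ / 2)).re := GG_cre h
  refine ⟨(Complex.cos (φ / 2)).re / (4 * π), ‖sg 0 φ‖ + 1, by positivity, ?_⟩
  have e1 : ∀ᶠ p : ℂ × ℂ in 𝓝 ((0 : ℂ), φ), p.2 ∈ GG :=
    continuous_snd.continuousAt.eventually (GG_open.mem_nhds h)
  have e2 : ∀ᶠ p : ℂ × ℂ in 𝓝 ((0 : ℂ), φ), ‖sg p.1 p.2‖ ≤ ‖sg 0 φ‖ + 1 := by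
    have c1 := (sg_an hn).continuousAt.norm
    have : ∀ᶠ p : ℂ × ℂ in 𝓝 ((0 : ℂ), φ), ‖sg p.1 p.2‖ < ‖sg 0 φ‖ + 1 :=
      c1.eventually (isOpen_Iio.mem_nhds (by simp))
    exact this.mono fun p hp => hp.le
  have e3 : ∀ᶠ p : ℂ × ℂ in 𝓝 ((0 : ℂ), φ), (TF p.1 p.2 (dst p.1 p.2)).re < 0 :=
    (Complex.continuous_re.continuousAt.comp (TF_cont hn)).eventually
      (isOpen_Iio.mem_nhds (TF_base h))
  have e4 : ∀ᶠ p : ℂ × ℂ in 𝓝 ((0 : ℂ), φ), (fderiv ℂ g1 p (1, 0)).re <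
      -((Complex.cos (φ / 2)).re / (4 * π)) := by
    refine (Complex.continuous_re.continuousAt.comp (g1_cont hn)).eventually
      (isOpen_Iio.mem_nhds ?_)
    change (fderiv ℂ g1 (0, φ) (1, 0)).re < _
    rw [g1_base h]
    have : (-(1 / (2 * π)) * Complex.cos (φ / 2) : ℂ) =
      ((-(1 / (2 * π)) : ℝ) : ℂ) * Complex.cos (φ / 2) := by push_cast; ring
    rw [this, Complex.re_ofReal_mul]
    have h1 : (Complex.cos (φ / 2)).re / (4 * π) = (1 / 2) * (1 / (2 * π) *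
      (Complex.cos (φ / 2)).re) := by
      field_simp
      ring
    rw [h1]
    have h2 : 0 < 1 / (2 * π) * (Complex.cos (φ / 2)).re := by positivity
    linarith
  filter_upwards [e1, nice_near hn, EE_near h, D2_near h, e2, e3, e4] with p a1 a2 a3 a4 a5 a6 a7
  exact ⟨a1, a2, a3, a4, a5, a6, a7⟩

theorem f_dcos {ψ φ : ℂ} (hP : Nice (ψ, φ)) : Complex.cos (2 * π * dst ψ φ) =
    (1 - Complex.cos ψ * Complex.cos φ) / (2 + Complex.cos ψ + Complex.cos φ) := by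
  have h1 := cC hP
  have h2 := den_nz hP
  simp only at h1 h2
  rw [mul_assoc, pi_dst, eq_div_iff h2]
  exact h1

theorem f_dpos {ψ φ : ℂ} (hP : Nice (ψ, φ)) : 0 < (dst ψ φ).re ∧
    2 * π * (dst ψ φ).re + |ψ.re| < π ∧ 2 * π * |(dst ψ φ).im| < φ.im := by
  have hpi := Real.pi_pos
  have e := pi_dst ψ φ
  have e1 : π * (dst ψ φ).re = (aa (ψ, φ)).re := by
    rw [← e]
    simp
  have e2 : π * (dst ψ φ).im = (aa (ψ, φ)).im := by
    rw [← e]
    simp
  have h1 := hP.re_pos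
  have h2 := hP.h1
  have h3 := hP.h2
  refine ⟨?_, ?_, ?_⟩
  · rw [← e1] at h1
    exact (pos_iff_pos_of_mul_pos h1).1 hpi
  · have : (aa (ψ, φ)).re + |ψ.re| / 2 < π / 2 := h2
    rw [← e1] at this
    linarith
  · have : |(aa (ψ, φ)).im| < φ.im / 2 := h3
    rw [← e2, abs_mul, abs_of_pos hpi] at this
    linarith

theorem f_dneg {c C : ℝ} {ψ φ : ℂ} (hP : Pt c C (ψ, φ)) :
    (deriv (deriv (TH ψ φ)) (dst ψ φ)).re < 0 := by
  have h1 := TH_deriv2 hP.nice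
  have h2 := hP.neg
  simp only at h1 h2
  rw [h1]
  exact h2

theorem f_sder1 {c C : ℝ} {ψ φ : ℂ} (hP : Pt c C (ψ, φ)) :
    HasDerivAt (fun z => sg z φ) (-(1 / (2 * π)) * Lg (2 * π * dst ψ φ) ψ) ψ := by
  have h1 := dpsi hP.nice
  have h2 := sg_d1 hP.nice hP.crit
  simp only at h1 h2
  rw [h1] at h2
  refine h2.congr_deriv ?_
  ring

theorem f_sder2 {c C : ℝ} {ψ φ : ℂ} (hP : Pt c C (ψ, φ)) :
    HasDerivAt (fun z => sg ψ z) (-(1 / (2 * π)) * Lg (2 * π * dst ψ φ) φ) φ := by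
  have h2 := sg_d2 hP.nice hP.crit
  have h1 := hP.d2
  unfold D2 at h1
  simp only at h1 h2
  refine h2.congr_deriv ?_
  rw [Lg_eq]
  linear_combination (1 / (2 * (π : ℂ))) * h1

theorem f_conc {c C : ℝ} {ψ φ : ℂ} (hP : Pt c C (ψ, φ)) (ho : ∀ᶠ z in 𝓝 ψ, Pt c C (z, φ)) :
    (deriv (deriv fun z => sg z φ) ψ).re ≤ -c := by
  have he : deriv (fun z => sg z φ) =ᶠ[𝓝 ψ] fun z => g1 (z, φ) := by
    filter_upwards [ho] with z hz
    have h1 := (sg_d1 hz.nice hz.crit).deriv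
    simp only at h1
    rw [h1]
    rfl
  rw [he.deriv_eq]
  have h1 := (g1_fd hP.nice).deriv
  simp only at h1
  rw [h1]
  exact hP.conc.le

theorem f_crit {c C : ℝ} {ψ φ : ℂ} (hP : Pt c C (ψ, φ)) : HasDerivAt (TH ψ φ) 0 (dst ψ φ) := by
  have h1 := TH_crit hP.nice hP.crit
  simp only at h1
  exact h1

theorem f_san {c C : ℝ} {ψ φ : ℂ} (hP : Pt c C (ψ, φ)) :
    DifferentiableAt ℂ (fun p : ℂ × ℂ => sg p.1 p.2) (ψ, φ) := (sg_an hP.nice).differentiableAt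

theorem f_dan {c C : ℝ} {ψ φ : ℂ} (hP : Pt c C (ψ, φ)) :
    DifferentiableAt ℂ (fun p : ℂ × ℂ => dst p.1 p.2) (ψ, φ) := by
  have h1 : DifferentiableAt ℂ aa (ψ, φ) := hP.nice.ana.differentiableAt
  exact h1.const_mul (1 / π : ℂ)

theorem sgp_of {φ₀ : ℂ} {r c C : ℝ} (hr : 0 < r ∧ r ≤ 1 / 10) (hc : 0 < c)
    (hpt : ∀ ψ ∈ Rc r r, ∀ φ ∈ ball φ₀ r, Pt c C (ψ, φ))
    (ho : ∀ ψ ∈ Rc r r, ∀ φ ∈ ball φ₀ r, ∀ᶠ z in 𝓝 ψ, Pt c C (z, φ)) : SGP φ₀ r c C := by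
  have h0 : (0 : ℂ) ∈ Rc r r := by
    refine ⟨?_, ?_⟩ <;> simp [hr.1]
  constructor
  · exact hr
  · exact hc
  · exact fun φ hφ => (hpt 0 h0 φ hφ).mem
  · rintro ⟨ψ, φ⟩ ⟨hψ, hφ⟩
    exact (f_san (hpt ψ hψ φ hφ)).differentiableWithinAt
  · rintro ⟨ψ, φ⟩ ⟨hψ, hφ⟩
    exact (f_dan (hpt ψ hψ φ hφ)).differentiableWithinAt
  · exact fun ψ hψ φ hφ => (hpt ψ hψ φ hφ).bd
  · exact fun ψ _ φ _ => sg_neg ψ φ
  · exact fun ψ hψ φ hφ => f_conc (hpt ψ hψ φ hφ) (ho ψ hψ φ hφ)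
  · exact fun ψ hψ φ hφ => f_dcos (hpt ψ hψ φ hφ).nice
  · exact fun ψ hψ φ hφ => f_dpos (hpt ψ hψ φ hφ).nice
  · exact fun ψ hψ φ hφ => f_crit (hpt ψ hψ φ hφ)
  · exact fun ψ hψ φ hφ => f_dneg (hpt ψ hψ φ hφ)
  · exact fun ψ hψ φ hφ => f_sder1 (hpt ψ hψ φ hφ)
  · exact fun ψ hψ φ hφ => f_sder2 (hpt ψ hψ φ hφ)

theorem sgp : S_SGP := by
  intro φ₀ h
  obtain ⟨c, C, hc, hev⟩ := pt_near h
  obtain ⟨ε, hε, hball⟩ := Metric.eventually_nhds_iff_ball.1 hev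
  obtain ⟨r, hrpos, hr1, hr2⟩ : ∃ r : ℝ, 0 < r ∧ r ≤ 1 / 10 ∧ r ≤ ε / 2 :=
    ⟨min (1 / 10) (ε / 2), lt_min (by norm_num) (by positivity), min_le_left _ _, min_le_right _ _⟩
  have hin : ∀ ψ ∈ Rc r r, ∀ φ ∈ ball φ₀ r, (ψ, φ) ∈ ball ((0 : ℂ), φ₀) ε := by
    rintro ψ ⟨h1, h2⟩ φ hφ
    rw [← ball_prod_same]
    refine ⟨?_, ?_⟩
    · rw [mem_ball_zero_iff]
      have := Complex.norm_le_abs_re_add_abs_im ψ
      simp only
      linarith
    · rw [mem_ball] at hφ ⊢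
      simp only
      linarith
  refine ⟨r, c, C, sgp_of ⟨hrpos, hr1⟩ hc (fun ψ hψ φ hφ => hball _ (hin ψ hψ φ hφ)) ?_⟩
  intro ψ hψ φ hφ
  have c1 : ContinuousAt (fun z : ℂ => (z, φ)) ψ := by fun_prop
  have h2 := c1.eventually (isOpen_ball.mem_nhds (hin ψ hψ φ hφ))
  filter_upwards [h2] with z hz
  exact hball _ hz

end Pool.Agent.N496.VS
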