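import Pool.Agent.N496.VS.Basic

/-!
# The potential near `ψ = 0` (job A6): the critical point
-/

set_option autoImplicit false

namespace Pool.Agent.N496.VS

open Filter Topology Metric Set
open scoped Real
open Pool.Agent.N561

/-- `tan (π δ*)` -/
noncomputable def ww (p : ℂ × ℂ) : ℂ := Complex.cos (p.1 / 2) *
  Complex.cos (p.2 / 2) / (1 - Complex.sin (p.1 / 2) ^ 2 * Complex.sin (p.2 / 2) ^ 2) ^ (1 / 2 : ℂ)

/-- `π δ*` -/
noncomputable def aa (p : ℂ × ℂ) : ℂ := Complex.arctan (ww p)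

theorem dst_eq (ψ φ : ℂ) : dst ψ φ = 1 / π * aa (ψ, φ) := rfl

theorem pi_ne : (π : ℂ) ≠ 0 := by exact_mod_cast Real.pi_ne_zero

theorem pi_dst (ψ φ : ℂ) : π * dst ψ φ = aa (ψ, φ) := by
  rw [dst_eq]
  have := pi_ne
  field_simp

theorem ww_zero (φ : ℂ) : ww (0, φ) = Complex.cos (φ / 2) := by
  unfold ww
  simp

/-! ### `arctan` on the right half plane -/

/-- `(1 + i z) / (1 - i z)` -/
noncomputable def qz (z : ℂ) : ℂ := (1 + z * Complex.I) / (1 - z * Complex.I)

theorem den_ne {z : ℂ} (hz : 0 < z.re) : 1 - z * Complex.I ≠ 0 := by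
  intro h
  have := congrArg Complex.im h
  simp at this
  exact hz.ne' this

theorem num_ne {z : ℂ} (hz : 0 < z.re) : 1 + z * Complex.I ≠ 0 := by
  intro h
  have := congrArg Complex.im h
  simp at this
  exact hz.ne' this

theorem qz_im {z : ℂ} (hz : 0 < z.re) : 0 < (qz z).im := by
  unfold qz
  rw [Complex.div_im]
  have hn : 0 < Complex.normSq (1 - z * Complex.I) := Complex.normSq_pos.2 (den_ne hz)
  have e : (1 + z * Complex.I).im * (1 - z * Complex.I).re / Complex.normSq (1 - z * Complex.I) -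
      (1 + z * Complex.I).re * (1 - z * Complex.I).im / Complex.normSq (1 - z * Complex.I) =
      (2 * z.re) / Complex.normSq (1 - z * Complex.I) := by
    rw [← sub_div]
    congr 1
    simp
    ring
  rw [e]
  positivity

theorem qz_slit {z : ℂ} (hz : 0 < z.re) : qz z ∈ Complex.slitPlane := by
  rw [Complex.mem_slitPlane_iff]
  right
  exact (qz_im hz).ne'

theorem at_re {z : ℂ} : (Complex.arctan z).re = (qz z).arg / 2 := by
  unfold Complex.arctan qz
  set q := (1 + z * Complex.I) / (1 - z * Complex.I)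
  simp [Complex.mul_re, Complex.log_im, Complex.log_re]
  ring

theorem at_im {z : ℂ} : (Complex.arctan z).im = -(Real.log ‖qz z‖) / 2 := by
  unfold Complex.arctan qz
  set q := (1 + z * Complex.I) / (1 - z * Complex.I)
  simp only [Complex.mul_im, Complex.log_im, Complex.log_re]
  simp
  ring

theorem at_re_pos {z : ℂ} (hz : 0 < z.re) : 0 < (Complex.arctan z).re := by
  rw [at_re]
  have h := qz_im hz
  have h1 : 0 ≤ (qz z).arg := Complex.arg_nonneg_iff.2 h.le
  have h2 : (qz z).arg ≠ 0 := by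
    intro h0
    rw [Complex.arg_eq_zero_iff] at h0
    exact h.ne' h0.2
  have : 0 < (qz z).arg := lt_of_le_of_ne h1 (Ne.symm h2)
  linarith

theorem at_re_lt {z : ℂ} (hz : 0 < z.re) : (Complex.arctan z).re < π / 2 := by
  rw [at_re]
  have h := qz_im hz
  have h1 : (qz z).arg ≤ π := Complex.arg_le_pi _
  have h2 : (qz z).arg ≠ π := by
    intro h0
    rw [Complex.arg_eq_pi_iff] at h0
    exact h.ne' h0.2
  have : (qz z).arg < π := lt_of_le_of_ne h1 h2
  linarith

theorem ne_I {z : ℂ} (hz : 0 < z.re) : z ≠ Complex.I ∧ z ≠ -Complex.I := by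
  constructor <;> · rintro rfl; simp at hz

theorem at_tan {z : ℂ} (hz : 0 < z.re) : Complex.tan (Complex.arctan z) = z :=
  Complex.tan_arctan (ne_I hz).1 (ne_I hz).2

theorem at_cos_re {z : ℂ} (hz : 0 < z.re) : 0 < (Complex.cos (Complex.arctan z)).re := by
  apply cos_re_pos
  rw [abs_of_pos (at_re_pos hz)]
  exact at_re_lt hz

theorem at_cos_ne {z : ℂ} (hz : 0 < z.re) : Complex.cos (Complex.arctan z) ≠ 0 := by
  intro h
  have := at_cos_re hz
  rw [h] at this
  simp at this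

theorem at_sin {z : ℂ} (hz : 0 < z.re) :
    Complex.sin (Complex.arctan z) = z * Complex.cos (Complex.arctan z) := by
  have h := at_tan hz
  rw [Complex.tan_eq_sin_div_cos, div_eq_iff (at_cos_ne hz)] at h
  exact h

theorem at_cos_sq {z : ℂ} (hz : 0 < z.re) :
    Complex.cos (Complex.arctan z) ^ 2 * (1 + z ^ 2) = 1 := by
  have h := Complex.sin_sq_add_cos_sq (Complex.arctan z)
  rw [at_sin hz] at h
  linear_combination h

theorem at_analytic {z : ℂ} (hz : 0 < z.re) : AnalyticAt ℂ Complex.arctan z := by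
  have h1 : AnalyticAt ℂ qz z := by
    unfold qz
    exact AnalyticAt.div (by fun_prop) (by fun_prop) (den_ne hz)
  have h2 : AnalyticAt ℂ (fun z => Complex.log (qz z)) z := h1.clog (qz_slit hz)
  exact (analyticAt_const (v := -Complex.I / 2)).mul h2

/-! ### The region -/

theorem GG_open : IsOpen GG := by
  unfold GG
  have h1 : IsOpen {φ : ℂ | |φ.re| < 33 / 16} := isOpen_lt (by fun_prop) continuous_const
  have h2 : IsOpen {φ : ℂ | 0 < φ.im} := isOpen_lt continuous_const (by fun_prop)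
  have h3 : IsOpen {φ : ℂ | φ.im < 39 / 20} := isOpen_lt (by fun_prop) continuous_const
  have h4 : IsOpen {φ : ℂ | -1 < Real.cos φ.re * Real.cosh φ.im} :=
    isOpen_lt continuous_const ((Real.continuous_cos.comp Complex.continuous_re).mul
      (Real.continuous_cosh.comp Complex.continuous_im))
  exact h1.inter (h2.inter (h3.inter h4))

theorem pi_gt' : (33 / 16 : ℝ) < 2 * π / 3 := by
  have := Real.pi_gt_d2
  norm_num at this ⊢
  linarith

theorem GG_re {φ : ℂ} (h : φ ∈ GG) : |(φ / 2).re| < π / 2 := by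
  have h1 := h.1
  have e : (φ / 2).re = φ.re / 2 := by simp
  rw [e, abs_div, abs_two]
  have := Real.pi_gt_three
  linarith

theorem GG_cos {φ : ℂ} (h : φ ∈ GG) : -(1 / 2) < Real.cos φ.re := by
  have h1 := h.1
  have h2 := pi_gt'
  have hpi := Real.pi_pos
  rw [← Real.cos_abs]
  have : Real.cos (2 * π / 3) < Real.cos |φ.re| := by
    apply Real.cos_lt_cos_of_nonneg_of_le_pi (abs_nonneg _)
    · linarith
    · linarith
  have e : Real.cos (2 * π / 3) = -(1 / 2) := by
    have : 2 * π / 3 = π - π / 3 := by ring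
    rw [this, Real.cos_pi_sub, Real.cos_pi_div_three]
  linarith

theorem GG_cosh {φ : ℂ} (h : φ ∈ GG) : 1 < Real.cosh φ.im := by
  rw [Real.one_lt_cosh]
  exact h.2.1.ne'

theorem GG_cre {φ : ℂ} (h : φ ∈ GG) : 0 < (Complex.cos (φ / 2)).re := cos_re_pos (GG_re h)

/-- squares of the parts of `cos (φ / 2)` -/
theorem half_re (φ : ℂ) : (Complex.cos (φ / 2)).re ^ 2 =
    (1 + Real.cos φ.re) * (1 + Real.cosh φ.im) / 4 := by
  rw [cos_re]
  have e1 : (φ / 2).re = φ.re / 2 := by simp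
  have e2 : (φ / 2).im = φ.im / 2 := by simp
  rw [e1, e2, mul_pow, Real.cos_sq, Real.cosh_sq']
  have h1 : 2 * (φ.re / 2) = φ.re := by ring
  have h2 := Real.cosh_two_mul (φ.im / 2)
  have h3 : 2 * (φ.im / 2) = φ.im := by ring
  have h4 := Real.cosh_sq (φ.im / 2)
  rw [h3] at h2
  rw [h1]
  have h5 : Real.sinh (φ.im / 2) ^ 2 = (Real.cosh φ.im - 1) / 2 := by linarith
  rw [h5]
  ring

theorem half_im (φ : ℂ) : (Complex.cos (φ / 2)).im ^ 2 =
    (1 - Real.cos φ.re) * (Real.cosh φ.im - 1) / 4 := by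
  rw [cos_im]
  have e1 : (φ / 2).re = φ.re / 2 := by simp
  have e2 : (φ / 2).im = φ.im / 2 := by simp
  rw [e1, e2, neg_sq, mul_pow, Real.sin_sq, Real.cos_sq]
  have h1 : 2 * (φ.re / 2) = φ.re := by ring
  have h2 := Real.cosh_two_mul (φ.im / 2)
  have h3 : 2 * (φ.im / 2) = φ.im := by ring
  have h4 := Real.cosh_sq (φ.im / 2)
  rw [h3] at h2
  rw [h1]
  have h5 : Real.sinh (φ.im / 2) ^ 2 = (Real.cosh φ.im - 1) / 2 := by linarith
  rw [h5]
  ring

theorem poly {k C : ℝ} (hk : -(1 / 2) < k) (hC : 1 < C) :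
    (2 + C + k) ^ 2 < C ^ 2 * (8 + 4 * k * C + (C + k) ^ 2) := by
  have e : C ^ 2 * (8 + 4 * k * C + (C + k) ^ 2) - (2 + C + k) ^ 2 =
      (C - 1) * (C ^ 3 + C ^ 2 + 8 * C + 4 + k * (6 * C ^ 2 + 6 * C + 4) + k ^ 2 * (C + 1)) := by
    ring
  have h1 : 0 < C - 1 := by linarith
  have h2 : 0 < C ^ 3 + C ^ 2 + 8 * C + 4 + k * (6 * C ^ 2 + 6 * C + 4) + k ^ 2 * (C + 1) := by
    have h3 : 0 < (k + 1 / 2) * (6 * C ^ 2 + 6 * C + 4) := by
      apply mul_pos <;> nlinarith
    have h4 : 0 ≤ k ^ 2 * (C + 1) := by positivity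
    have h5 : 0 < C ^ 3 - 2 * C ^ 2 + 5 * C + 2 := by nlinarith [sq_nonneg (C - 1)]
    nlinarith
  have := mul_pos h1 h2
  linarith

/-- (C0) -/
theorem im_lt {φ : ℂ} (h : φ ∈ GG) : |(aa (0, φ)).im| < φ.im / 2 := by
  unfold aa
  rw [ww_zero, at_im]
  set z := Complex.cos (φ / 2) with hz
  have hzr : 0 < z.re := GG_cre h
  have hY := h.2.1
  have hq : 0 < ‖qz z‖ := by
    rw [norm_pos_iff]
    exact Complex.slitPlane_ne_zero (qz_slit hzr)
  have key : Real.cosh (Real.log ‖qz z‖) < Real.cosh φ.im := by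
    rw [Real.cosh_log hq]
    set A := ‖1 + z * Complex.I‖ with hA
    set B := ‖1 - z * Complex.I‖ with hB
    have hApos : 0 < A := norm_pos_iff.2 (num_ne hzr)
    have hBpos : 0 < B := norm_pos_iff.2 (den_ne hzr)
    have e0 : ‖qz z‖ = A / B := by
      unfold qz
      rw [norm_div]
    have eA : A ^ 2 = (1 - z.im) ^ 2 + z.re ^ 2 := by
      rw [hA, Complex.sq_norm, Complex.normSq_apply]
      simp
      ring
    have eB : B ^ 2 = (1 + z.im) ^ 2 + z.re ^ 2 := by
      rw [hB, Complex.sq_norm, Complex.normSq_apply]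
      simp
      ring
    have hre := half_re φ
    have him := half_im φ
    rw [← hz] at hre him
    set k := Real.cos φ.re
    set C := Real.cosh φ.im
    have hk : -(1 / 2) < k := GG_cos h
    have hC : 1 < C := GG_cosh h
    have hsum : A ^ 2 + B ^ 2 = 2 + C + k := by
      rw [eA, eB]
      linarith
    have hprod : (A * B) ^ 2 = (8 + 4 * k * C + (C + k) ^ 2) / 4 := by
      rw [mul_pow, eA, eB]
      have : ((1 - z.im) ^ 2 + z.re ^ 2) * ((1 + z.im) ^ 2 + z.re ^ 2) =
        (1 + (z.im ^ 2 + z.re ^ 2)) ^ 2 - 4 * z.im ^ 2 := by ring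
      rw [this, hre, him]
      ring
    have hp := poly hk hC
    have h1 : (A ^ 2 + B ^ 2) ^ 2 < (2 * C * (A * B)) ^ 2 := by
      rw [hsum, mul_pow, hprod]
      linarith
    have h2 : A ^ 2 + B ^ 2 < 2 * C * (A * B) := by
      apply lt_of_pow_lt_pow_left₀ 2 _ h1
      positivity
    rw [e0]
    have e1 : (A / B + (A / B)⁻¹) / 2 = (A ^ 2 + B ^ 2) / (2 * (A * B)) := by
      field_simp
    rw [e1, div_lt_iff₀ (by positivity)]
    linarith
  rw [Real.cosh_lt_cosh] at key
  rw [abs_div, abs_neg, abs_two]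
  rw [abs_of_pos hY] at key
  linarith

theorem GG_shrink {φ : ℂ} (h : φ ∈ GG) {s : ℝ} (hs0 : 0 ≤ s) (hs1 : s ≤ 1) :
    ((s * φ.re : ℝ) + φ.im * Complex.I : ℂ) ∈ GG := by
  obtain ⟨h1, h2, h3, h4⟩ := h
  have e1 : ((s * φ.re : ℝ) + φ.im * Complex.I : ℂ).re = s * φ.re := by simp
  have e2 : ((s * φ.re : ℝ) + φ.im * Complex.I : ℂ).im = φ.im := by simp
  have hle : |s * φ.re| ≤ |φ.re| := by
    rw [abs_mul, abs_of_nonneg hs0]
    nlinarith [abs_nonneg φ.re]
  refine ⟨?_, ?_, ?_, ?_⟩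
  · rw [e1]
    exact lt_of_le_of_lt hle h1
  · rw [e2]
    exact h2
  · rw [e2]
    exact h3
  · rw [e1, e2]
    have h5 : Real.cos φ.re ≤ Real.cos (s * φ.re) := by
      rw [← Real.cos_abs, ← Real.cos_abs (s * φ.re)]
      apply Real.cos_le_cos_of_nonneg_of_le_pi (abs_nonneg _) _ hle
      have := Real.pi_gt_three
      linarith
    have h6 := Real.cosh_pos φ.im
    nlinarith

/-- the real part of the second derivative -/
theorem neg_re {φ : ℂ} (h : φ ∈ GG) :
    0 < ((1 + Complex.cos (φ / 2) ^ 2) ^ 2 / Complex.cos (φ / 2) ^ 3).re := by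
  have hre := half_re φ
  have him := half_im φ
  have hzr : 0 < (Complex.cos (φ / 2)).re := GG_cre h
  have hk : -(1 / 2) < Real.cos φ.re := GG_cos h
  have hk1 : Real.cos φ.re ≤ 1 := Real.cos_le_one _
  have hC : 1 < Real.cosh φ.im := GG_cosh h
  have hm := h.2.2.2
  set z := Complex.cos (φ / 2)
  set k := Real.cos φ.re
  set C := Real.cosh φ.im
  have hz : z ≠ 0 := by
    intro h0
    rw [h0] at hzr
    simp at hzr
  have hN : 0 < Complex.normSq z := Complex.normSq_pos.2 hz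
  have eN : Complex.normSq z = (C + k) / 2 := by
    rw [Complex.normSq_apply]
    have : z.re * z.re + z.im * z.im = z.re ^ 2 + z.im ^ 2 := by ring
    rw [this, hre, him]
    ring
  have e : (1 + z ^ 2) ^ 2 / z ^ 3 = z + 2 * z⁻¹ + (z⁻¹) ^ 3 := by
    field_simp
    ring
  rw [e]
  have e2 : (z + 2 * z⁻¹ + (z⁻¹) ^ 3).re = z.re * (Complex.normSq z ^ 2 + 2 * Complex.normSq z +
      4 * z.re ^ 2 / Complex.normSq z - 3) / Complex.normSq z ^ 2 := by
    have i1 : (z⁻¹).re = z.re / Complex.normSq z := Complex.inv_re z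
    have i2 : (z⁻¹).im = -z.im / Complex.normSq z := Complex.inv_im z
    have i3 : ((z⁻¹) ^ 3).re = (z⁻¹).re ^ 3 - 3 * (z⁻¹).re * (z⁻¹).im ^ 2 := by
      rw [pow_succ, pow_two]
      simp only [Complex.mul_re, Complex.mul_im]
      ring
    have i4 : z.im ^ 2 = Complex.normSq z - z.re ^ 2 := by
      rw [Complex.normSq_apply]
      ring
    simp only [Complex.add_re, Complex.mul_re, Complex.re_ofNat, Complex.im_ofNat, zero_mul,
      sub_zero]
    rw [i3, i1, i2]
    have i5 : (-z.im / Complex.normSq z) ^ 2 = (Complex.normSq z - z.re ^ 2) /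
      Complex.normSq z ^ 2 := by
      rw [div_pow, neg_sq, i4]
    rw [i5]
    field_simp
    ring
  rw [e2]
  apply div_pos _ (by positivity)
  apply mul_pos hzr
  rw [eN] at hN ⊢
  have ha : 0 < C + k := by linarith
  have e3 : ((C + k) / 2) ^ 2 + 2 * ((C + k) / 2) + 4 * z.re ^ 2 / ((C + k) / 2) - 3 =
      ((C + k) ^ 3 / 4 + (C + k) ^ 2 - (C + k) + 2 + 2 * (k * C)) / (C + k) := by
    rw [hre]
    field_simp
    ring
  rw [e3]
  apply div_pos _ ha
  have hm' : -1 < k * C := hm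
  have h3 : 0 < (C + k) ^ 3 := by positivity
  by_cases h1 : 1 ≤ C + k
  · nlinarith
  · push Not at h1
    by_cases hk0 : 0 ≤ k
    · nlinarith [mul_nonneg hk0 (by linarith : (0:ℝ) ≤ C)]
    · push Not at hk0
      have : -(3 / 4) < k * C := by nlinarith
      nlinarith [sq_nonneg (C + k - 1 / 2)]

end Pool.Agent.N496.VS
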